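import Mathlib

set_option autoImplicit false

/-!
# The triangular lattice and its standard triangulation
-/

namespace Pool.Agent.Lib_helper53.Thick

open Finset

/-- lattice points -/
abbrev Pt := ℤ × ℤ

/-- triangles: base point and orientation (false: up, true: down) -/
abbrev Tri := Pt × Bool

/-- embedding of the triangular lattice in the complex plane -/
noncomputable def ee (p : Pt) : ℂ := ⟨(p.1 : ℝ) + (p.2 : ℝ) / 2, (p.2 : ℝ) * (√3 / 2)⟩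

/-- the vertices of a triangle -/
def vtx (τ : Tri) : Fin 3 → Pt :=
  if τ.2 = false then ![τ.1, (τ.1.1 + 1, τ.1.2), (τ.1.1, τ.1.2 + 1)]
  else ![(τ.1.1 + 1, τ.1.2 + 1), (τ.1.1, τ.1.2 + 1), (τ.1.1 + 1, τ.1.2)]

/-- the neighbour of a triangle across the edge opposite to the vertex `d` -/
def nb (d : Fin 3) (τ : Tri) : Tri :=
  if τ.2 = false then
    (![(τ.1.1, τ.1.2), (τ.1.1 - 1, τ.1.2), (τ.1.1, τ.1.2 - 1)] d, true)
  else
    (![(τ.1.1, τ.1.2), (τ.1.1 + 1, τ.1.2), (τ.1.1, τ.1.2 + 1)] d, false)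

lemma nb_nb (d : Fin 3) (τ : Tri) : nb d (nb d τ) = τ := by
  obtain ⟨⟨a, b⟩, c⟩ := τ
  fin_cases d <;> cases c <;> simp [nb]

lemma nb_ne (d : Fin 3) (τ : Tri) : nb d τ ≠ τ := by
  obtain ⟨⟨a, b⟩, c⟩ := τ
  fin_cases d <;> cases c <;> simp [nb]

lemma vtx_nb1 (d : Fin 3) (τ : Tri) : vtx (nb d τ) (d + 1) = vtx τ (d + 2) := by
  obtain ⟨⟨a, b⟩, c⟩ := τ
  fin_cases d <;> cases c <;> simp [nb, vtx]

lemma vtx_nb2 (d : Fin 3) (τ : Tri) : vtx (nb d τ) (d + 2) = vtx τ (d + 1) := by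
  obtain ⟨⟨a, b⟩, c⟩ := τ
  fin_cases d <;> cases c <;> simp [nb, vtx]

lemma norm_sq_ee (p q : Pt) : ‖ee p - ee q‖ ^ 2 =
    ((p.1 : ℝ) - q.1) ^ 2 + ((p.1 : ℝ) - q.1) * ((p.2 : ℝ) - q.2) + ((p.2 : ℝ) - q.2) ^ 2 := by
  rw [← Complex.normSq_eq_norm_sq, Complex.normSq_apply]
  simp only [ee, Complex.sub_re, Complex.sub_im]
  have h3 : √3 * √3 = (3 : ℝ) := Real.mul_self_sqrt (by norm_num)
  linear_combination (((p.2 : ℝ) - q.2) ^ 2 / 4) * h3

lemma norm_ee_le {p q : Pt} {C : ℝ} (hC : 0 ≤ C)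
    (h : ((p.1 : ℝ) - q.1) ^ 2 + ((p.1 : ℝ) - q.1) * ((p.2 : ℝ) - q.2) + ((p.2 : ℝ) - q.2) ^ 2
      ≤ C ^ 2) : ‖ee p - ee q‖ ≤ C := by
  rw [← norm_sq_ee] at h
  exact (sq_le_sq₀ (norm_nonneg _) hC).mp h

lemma vtx_dist (τ : Tri) (i j : Fin 3) : ‖ee (vtx τ i) - ee (vtx τ j)‖ ≤ 1 := by
  obtain ⟨⟨a, b⟩, c⟩ := τ
  apply norm_ee_le zero_le_one
  fin_cases i <;> fin_cases j <;> cases c <;> simp [vtx] <;> norm_num

lemma vtx_base (τ : Tri) (i : Fin 3) : ‖ee (vtx τ i) - ee τ.1‖ ≤ 2 := by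
  obtain ⟨⟨a, b⟩, c⟩ := τ
  apply norm_ee_le zero_le_two
  fin_cases i <;> cases c <;> simp [vtx] <;> norm_num

lemma nb_base (d : Fin 3) (τ : Tri) : ‖ee (nb d τ).1 - ee τ.1‖ ≤ 1 := by
  obtain ⟨⟨a, b⟩, c⟩ := τ
  apply norm_ee_le zero_le_one
  fin_cases d <;> cases c <;> simp [nb]

/-- coordinates are controlled by the norm -/
lemma coord_le (p q : Pt) : |(p.1 : ℝ) - q.1| ≤ 2 * ‖ee p - ee q‖ ∧
    |(p.2 : ℝ) - q.2| ≤ 2 * ‖ee p - ee q‖ := by
  have h := norm_sq_ee p q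
  set x := (p.1 : ℝ) - q.1
  set y := (p.2 : ℝ) - q.2
  have h0 := norm_nonneg (ee p - ee q)
  constructor
  · apply abs_le_of_sq_le_sq _ (by positivity)
    nlinarith [sq_nonneg (x + 2 * y)]
  · apply abs_le_of_sq_le_sq _ (by positivity)
    nlinarith [sq_nonneg (2 * x + y)]

lemma finite_pts (y : ℂ) (r : ℝ) : {p : Pt | ‖ee p - y‖ < r}.Finite := by
  set M : ℤ := ⌈2 * (r + ‖y‖)⌉ with hM
  apply ((Finset.Icc (-M) M) ×ˢ (Finset.Icc (-M) M)).finite_toSet.subset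
  intro p hp
  have hp' : ‖ee p - y‖ < r := hp
  have h0 : ee (0, 0) = 0 := by simp [ee, Complex.ext_iff]
  have h1 : ‖ee p - ee (0, 0)‖ ≤ r + ‖y‖ := by
    rw [h0, sub_zero]
    calc ‖ee p‖ = ‖(ee p - y) + y‖ := by ring_nf
      _ ≤ ‖ee p - y‖ + ‖y‖ := norm_add_le _ _
      _ ≤ r + ‖y‖ := by linarith
  obtain ⟨h2, h3⟩ := coord_le p (0, 0)
  simp only [Int.cast_zero, sub_zero] at h2 h3
  have hM' : 2 * (r + ‖y‖) ≤ (M : ℝ) := Int.le_ceil _
  simp only [Finset.coe_product, Finset.coe_Icc, Set.mem_prod, Set.mem_Icc]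
  rw [abs_le] at h2 h3
  have e1 : (-(M : ℝ)) ≤ p.1 := by linarith [h2.1]
  have e2 : (p.1 : ℝ) ≤ M := by linarith [h2.2]
  have e3 : (-(M : ℝ)) ≤ p.2 := by linarith [h3.1]
  have e4 : (p.2 : ℝ) ≤ M := by linarith [h3.2]
  refine ⟨⟨?_, ?_⟩, ?_, ?_⟩
  · exact_mod_cast e1
  · exact_mod_cast e2
  · exact_mod_cast e3
  · exact_mod_cast e4

lemma finite_tri (y : ℂ) (r : ℝ) : {τ : Tri | ‖ee τ.1 - y‖ < r}.Finite := by
  have h : {τ : Tri | ‖ee τ.1 - y‖ < r} ⊆ {p : Pt | ‖ee p - y‖ < r} ×ˢ (Set.univ : Set Bool) := by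
    intro τ hτ
    exact ⟨hτ, Set.mem_univ _⟩
  exact ((finite_pts y r).prod Set.finite_univ).subset h

/-- the disc of triangles with base point at distance less than `r` from `y` -/
noncomputable def disc (y : ℂ) (r : ℝ) : Finset Tri := (finite_tri y r).toFinset

lemma mem_disc {y : ℂ} {r : ℝ} {τ : Tri} : τ ∈ disc y r ↔ ‖ee τ.1 - y‖ < r := by
  simp [disc]

lemma zmod2_add_self (x : ZMod 2) : x + x = 0 := by
  revert x; decide

/-- the sum of an edge function over the boundary of a triangle -/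
def bd (β : Pt → Pt → ZMod 2) (τ : Tri) : ZMod 2 :=
  β (vtx τ 1) (vtx τ 2) + β (vtx τ 2) (vtx τ 0) + β (vtx τ 0) (vtx τ 1)

/-- cancellation of the inner edges -/
lemma sum_bd_eq_zero (D : Finset Tri) (β : Pt → Pt → ZMod 2) (hsymm : ∀ u v, β u v = β v u)
    (h : ∀ τ ∈ D, ∀ d, nb d τ ∉ D → β (vtx τ (d + 1)) (vtx τ (d + 2)) = 0) :
    ∑ τ ∈ D, bd β τ = 0 := by
  have key : ∀ d : Fin 3, ∑ τ ∈ D, β (vtx τ (d + 1)) (vtx τ (d + 2)) = 0 := by
    intro d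
    apply Finset.sum_involution (fun τ hτ => if nb d τ ∈ D then nb d τ else τ)
    · intro τ hτ
      by_cases h1 : nb d τ ∈ D
      · simp only [h1, if_true]
        rw [vtx_nb1, vtx_nb2, hsymm (vtx τ (d + 2))]
        exact zmod2_add_self _
      · simp only [h1, if_false]
        exact zmod2_add_self _
    · intro τ hτ hne
      by_cases h1 : nb d τ ∈ D
      · simp only [h1, if_true]
        exact nb_ne d τ
      · exact absurd (h τ hτ d h1) hne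
    · intro τ hτ
      by_cases h1 : nb d τ ∈ D
      · simp only [h1, if_true]
      · simp only [h1, if_false]
        exact hτ
    · intro τ hτ
      by_cases h1 : nb d τ ∈ D
      · simp only [h1, if_true, nb_nb, hτ]
      · simp only [h1, if_false]
  have h0 := key 0
  have h1 := key 1
  have h2 := key 2
  simp only [bd, Finset.sum_add_distrib]
  have e0 : ((0 : Fin 3) + 1) = 1 := rfl
  have e1 : ((0 : Fin 3) + 2) = 2 := rfl
  have e2 : ((1 : Fin 3) + 1) = 2 := rfl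
  have e3 : ((1 : Fin 3) + 2) = 0 := rfl
  have e4 : ((2 : Fin 3) + 1) = 0 := rfl
  have e5 : ((2 : Fin 3) + 2) = 1 := rfl
  rw [e0, e1] at h0
  rw [e2, e3] at h1
  rw [e4, e5] at h2
  rw [h0, h1, h2]
  rfl

end Pool.Agent.Lib_helper53.Thick
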