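import Mathlib

set_option autoImplicit false

/-!
# A parity lemma for cyclic sequences of three colours

If a cyclic sequence of length `6 n` in three colours is such that the pairs of consecutive
entries at positions `t` and `t + n` use disjoint colours, then every pair of colours is
adjacent an odd number of times.
-/

namespace Pool.Agent.Lib_helper53.Thick

open Finset

/-- signed step between two colours -/
def dlt (a b : ZMod 3) : ℤ := if a = b then 0 else if b = a + 1 then 1 else -1

/-- signed crossing between the colours 0 and 1 -/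
def sgn01 (a b : ZMod 3) : ℤ := if a = 0 ∧ b = 1 then 1 else if a = 1 ∧ b = 0 then -1 else 0

/-- the potential -/
def pot3 (a : ZMod 3) : ℤ := if a = 0 then 0 else if a = 1 then 2 else 1

lemma dlt_cast (a b : ZMod 3) : ((dlt a b : ℤ) : ZMod 3) = b - a := by
  revert a b; decide

lemma dlt_abs (a b : ZMod 3) : dlt a b = 0 ∨ dlt a b = 1 ∨ dlt a b = -1 := by
  revert a b; decide

lemma dlt_disj (a b c d : ZMod 3) (h1 : c ≠ a) (h2 : d ≠ b) (h3 : d ≠ a) (h4 : c ≠ b) :
    dlt a b = 0 ∨ dlt c d = 0 := by
  revert a b c d; decide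

lemma three_sgn (a b : ZMod 3) : 3 * sgn01 a b = dlt a b + (pot3 b - pot3 a) := by
  revert a b; decide

lemma sgn01_cast (a b : ZMod 3) :
    ((sgn01 a b : ℤ) : ZMod 2) = if (a = 0 ∧ b = 1) ∨ (a = 1 ∧ b = 0) then 1 else 0 := by
  revert a b; decide

theorem seq_parity (n : ℕ) (g : ℕ → ZMod 3) (hper : ∀ t, g (t + 6 * n) = g t)
    (h1 : ∀ t, g (t + n) ≠ g t) (h2 : ∀ t, g (t + n + 1) ≠ g t)
    (h3 : ∀ t, g (t + n) ≠ g (t + 1)) :
    (∑ t ∈ range (6 * n), (if (g t = 0 ∧ g (t + 1) = 1) ∨ (g t = 1 ∧ g (t + 1) = 0)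
      then (1 : ZMod 2) else 0)) = 1 := by
  set d : ℕ → ℤ := fun t => dlt (g t) (g (t + 1)) with hd
  set D : ℕ → ℤ := fun t => ∑ s ∈ range n, d (t + s) with hD
  have hdisj : ∀ t, d t = 0 ∨ d (t + n) = 0 := by
    intro t
    refine dlt_disj _ _ _ _ (h1 t) ?_ (h2 t) (h3 t)
    have := h1 (t + 1)
    rwa [show t + 1 + n = t + n + 1 by ring] at this
  have hcast : ∀ t k : ℕ, ((∑ s ∈ range k, d (t + s) : ℤ) : ZMod 3) = g (t + k) - g t := by
    intro t k
    induction k with
    | zero => simp
    | succ k ih =>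
      rw [sum_range_succ, Int.cast_add, ih, hd, dlt_cast]
      rw [show t + (k + 1) = t + k + 1 by ring]
      ring
  have hD3 : ∀ t, ((D t : ℤ) : ZMod 3) ≠ 0 := by
    intro t
    rw [hD]
    simp only
    rw [hcast, sub_ne_zero]
    exact h1 t
  have hstep : ∀ t, D (t + 1) = D t + d (t + n) - d t := by
    intro t
    have e1 : ∑ s ∈ range (n + 1), d (t + s) = D t + d (t + n) := by
      rw [sum_range_succ]
    have e2 : ∑ s ∈ range (n + 1), d (t + s) = D (t + 1) + d t := by
      rw [sum_range_succ']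
      simp only [add_zero, hD]
      congr 1
      apply sum_congr rfl
      intro s _
      congr 1
      ring
    linarith
  have hnd : ∀ t, ¬ (3 ∣ D t) := by
    intro t h
    apply hD3 t
    exact (ZMod.intCast_zmod_eq_zero_iff_dvd (D t) 3).mpr h
  obtain ⟨m, hm⟩ : ∃ m : ℤ, ∀ t, D t = 3 * m + 1 ∨ D t = 3 * m + 2 := by
    refine ⟨D 0 / 3, fun t => ?_⟩
    induction t with
    | zero =>
      have := hnd 0
      omega
    | succ t ih =>
      have a1 := hnd (t + 1)
      have a2 := hstep t
      have a3 := hdisj t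
      have a4 := dlt_abs (g t) (g (t + 1))
      have a5 := dlt_abs (g (t + n)) (g (t + n + 1))
      have a4' : d t = 0 ∨ d t = 1 ∨ d t = -1 := a4
      have a5' : d (t + n) = 0 ∨ d (t + n) = 1 ∨ d (t + n) = -1 := a5
      omega
  have hsplit : ∀ t, ∑ s ∈ range (6 * n), d (t + s) =
      D t + D (t + n) + D (t + 2 * n) + D (t + 3 * n) + D (t + 4 * n) + D (t + 5 * n) := by
    intro t
    have e : ∀ k : ℕ, ∑ s ∈ range ((k + 1) * n), d (t + s) =
        ∑ s ∈ range (k * n), d (t + s) + D (t + k * n) := by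
      intro k
      rw [show (k + 1) * n = k * n + n by ring, sum_range_add]
      congr 1
      apply sum_congr rfl
      intro s _
      congr 1
      ring
    have e0 := e 0
    have e1 := e 1
    have e2 := e 2
    have e3 := e 3
    have e4 := e 4
    have e5 := e 5
    norm_num at e0 e1 e2 e3 e4 e5
    rw [e5, e4, e3, e2, e1]
  have hconst : ∀ t, ∑ s ∈ range (6 * n), d (t + s) = ∑ s ∈ range (6 * n), d (0 + s) := by
    intro t
    induction t with
    | zero => rfl
    | succ t ih =>
      rw [← ih]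
      have e1 : ∑ s ∈ range (6 * n + 1), d (t + s) =
          ∑ s ∈ range (6 * n), d (t + s) + d (t + 6 * n) := by
        rw [sum_range_succ]
      have e2 : ∑ s ∈ range (6 * n + 1), d (t + s) =
          ∑ s ∈ range (6 * n), d (t + 1 + s) + d t := by
        rw [sum_range_succ']
        simp only [add_zero]
        congr 1
        apply sum_congr rfl
        intro s _
        congr 1
        ring
      have e3 : d (t + 6 * n) = d t := by
        simp only [hd]
        rw [hper, show t + 6 * n + 1 = t + 1 + 6 * n by ring, hper]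
      linarith
  have hdiv : (3 : ℤ) ∣ ∑ s ∈ range (6 * n), d (0 + s) := by
    have := hcast 0 (6 * n)
    rw [hper, sub_self] at this
    exact (ZMod.intCast_zmod_eq_zero_iff_dvd _ 3).mp this
  have hodd : ∃ q : ℤ, ∑ s ∈ range (6 * n), d (0 + s) = 2 * q + 1 := by
    set S0 := ∑ s ∈ range (6 * n), d (0 + s) with hS0
    by_contra hcon
    push Not at hcon
    -- all D equal
    have hJ : ∀ t, D t = 3 * m + 1 ∧ S0 = 18 * m + 6 ∨ D t = 3 * m + 2 ∧ S0 = 18 * m + 12 := by
      intro t
      have b := hsplit t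
      rw [hconst t] at b
      have b0 := hm t
      have b1 := hm (t + n)
      have b2 := hm (t + 2 * n)
      have b3 := hm (t + 3 * n)
      have b4 := hm (t + 4 * n)
      have b5 := hm (t + 5 * n)
      obtain ⟨w, hw⟩ := hdiv
      have c1 := hcon (9 * m + 4)
      omega
    have hDc : ∀ t, D (t + 1) = D t := by
      intro t
      have b1 := hJ t
      have b2 := hJ (t + 1)
      omega
    have hd0 : ∀ t, d t = 0 := by
      intro t
      have b1 := hDc t
      have b2 := hstep t
      have b3 := hdisj t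
      omega
    apply hnd 0
    have : D 0 = 0 := by
      simp only [hD]
      exact sum_eq_zero (fun s _ => hd0 _)
    rw [this]
    exact dvd_zero _
  obtain ⟨q, hq⟩ := hodd
  have hs : 3 * ∑ t ∈ range (6 * n), sgn01 (g t) (g (t + 1)) = 2 * q + 1 := by
    rw [mul_sum, sum_congr rfl (fun t _ => three_sgn (g t) (g (t + 1))), sum_add_distrib]
    have e1 : ∑ t ∈ range (6 * n), (pot3 (g (t + 1)) - pot3 (g t)) = 0 := by
      rw [sum_range_sub (fun t => pot3 (g t))]
      have := hper 0
      rw [zero_add] at this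
      rw [this, sub_self]
    rw [e1, add_zero, ← hq]
    apply sum_congr rfl
    intro t _
    rw [zero_add]
  have hs2 : ∃ w : ℤ, ∑ t ∈ range (6 * n), sgn01 (g t) (g (t + 1)) = 2 * w + 1 := by
    set s := ∑ t ∈ range (6 * n), sgn01 (g t) (g (t + 1))
    exact ⟨(s - 1) / 2, by omega⟩
  obtain ⟨w, hw⟩ := hs2
  have := congrArg (fun z : ℤ => (z : ZMod 2)) hw
  simp only [Int.cast_sum, sgn01_cast] at this
  rw [this]
  push_cast
  have h20 : (2 : ZMod 2) = 0 := rfl
  rw [h20]
  ring

end Pool.Agent.Lib_helper53.Thick
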