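import Mathlib
import Pool.Agent.Lib_helper53.Thick.Seq
import Pool.Agent.Lib_helper53.Thick.Lattice

set_option autoImplicit false

/-!
# The circle around a point seeing three colours
-/

namespace Pool.Agent.Lib_helper53.Thick

open Finset

/-- a colouring of the plane with six colours without two points of the same colour at distance
between `r - s` and `r + s` -/
structure Good (c : ℂ → Fin 6) (r s : ℝ) : Prop where
  hs : 100 ≤ s
  hr : s ≤ r
  h : ∀ z w : ℂ, r - s ≤ ‖z - w‖ → ‖z - w‖ ≤ r + s → c z ≠ c w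

/-- two circles of the same radius with close centres meet -/
lemma exists_inter (p q : ℂ) (ρ : ℝ) (hρ : 0 ≤ ρ) (h : ‖p - q‖ ≤ 2 * ρ) :
    ∃ z : ℂ, ‖z - p‖ = ρ ∧ ‖z - q‖ = ρ := by
  by_cases hpq : p = q
  · refine ⟨p + ρ, ?_, ?_⟩
    · rw [add_sub_cancel_left, Complex.norm_real, Real.norm_of_nonneg hρ]
    · rw [← hpq, add_sub_cancel_left, Complex.norm_real, Real.norm_of_nonneg hρ]
  · set d := ‖p - q‖ with hd
    have hd0 : 0 < d := norm_pos_iff.mpr (sub_ne_zero.mpr hpq)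
    set t := √(ρ ^ 2 - (d / 2) ^ 2) with ht
    have ht2 : t ^ 2 = ρ ^ 2 - (d / 2) ^ 2 := Real.sq_sqrt (by nlinarith)
    set u : ℂ := (p - q) / (d : ℂ) with hu
    have hdc : (d : ℂ) ≠ 0 := by exact_mod_cast hd0.ne'
    have hu1 : ‖u‖ = 1 := by
      rw [hu, norm_div, Complex.norm_real, Real.norm_of_nonneg hd0.le, ← hd, div_self hd0.ne']
    have hpq' : p - q = u * d := by rw [hu, div_mul_cancel₀ _ hdc]
    have key : ∀ a : ℝ, a ^ 2 = (d / 2) ^ 2 → ‖u * ((a : ℂ) + (t : ℂ) * Complex.I)‖ = ρ := by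
      intro a ha
      rw [norm_mul, hu1, one_mul, Complex.norm_add_mul_I, ha, ht2]
      rw [show (d / 2) ^ 2 + (ρ ^ 2 - (d / 2) ^ 2) = ρ ^ 2 by ring, Real.sqrt_sq hρ]
    refine ⟨(p + q) / 2 + u * ((t : ℂ) * Complex.I), ?_, ?_⟩
    · have := key (-(d / 2)) (by ring)
      rw [← this]
      congr 1
      have : (p + q) / 2 - p = -(u * d) / 2 := by rw [← hpq']; ring
      push_cast
      linear_combination this
    · have := key (d / 2) (by ring)
      rw [← this]
      congr 1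
      have : (p + q) / 2 - q = (u * d) / 2 := by rw [← hpq']; ring
      push_cast
      linear_combination this

lemma Good.near {c : ℂ → Fin 6} {r s : ℝ} (G : Good c r s) {z w : ℂ} (hc : c z = c w)
    (h : ‖z - w‖ ≤ r + s) : ‖z - w‖ < r - s := by
  by_contra hcon
  push Not at hcon
  exact G.h z w hcon h hc

/-- two triples using all colours are far apart -/
lemma Good.cover_far {c : ℂ → Fin 6} {r s : ℝ} (G : Good c r s) (p q : ℂ) (X Y : Fin 3 → ℂ)
    (hX : ∀ i, ‖X i - p‖ ≤ 20) (hY : ∀ i, ‖Y i - q‖ ≤ 20)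
    (hcov : ∀ k : Fin 6, (∃ i, c (X i) = k) ∨ ∃ i, c (Y i) = k) : 2 * r + 20 < ‖p - q‖ := by
  by_contra hcon
  push Not at hcon
  have hs := G.hs
  have hr := G.hr
  obtain ⟨z, hz1, hz2⟩ := exists_inter p q (r + 10) (by linarith) (by linarith)
  have aux : ∀ (x w : ℂ), ‖z - w‖ = r + 10 → ‖x - w‖ ≤ 20 → c z ≠ c x := by
    intro x w h1 h2
    have e1 : ‖z - w‖ ≤ ‖z - x‖ + ‖x - w‖ := norm_sub_le_norm_sub_add_norm_sub z x w
    have e2 : ‖z - x‖ ≤ ‖z - w‖ + ‖w - x‖ := norm_sub_le_norm_sub_add_norm_sub z w x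
    rw [norm_sub_rev w x] at e2
    exact G.h z x (by linarith) (by linarith)
  rcases hcov (c z) with ⟨i, hi⟩ | ⟨i, hi⟩
  · exact aux (X i) p hz1 (hX i) hi.symm
  · exact aux (Y i) q hz2 (hY i) hi.symm

/-- six different colours are all colours -/
lemma cover6 {a b c d e f : Fin 6} (h : ({a, b, c, d, e, f} : Finset (Fin 6)).card = 6)
    (k : Fin 6) : k = a ∨ k = b ∨ k = c ∨ k = d ∨ k = e ∨ k = f := by
  have h1 : ({a, b, c, d, e, f} : Finset (Fin 6)) = univ := Finset.eq_univ_of_card _ (by simpa using h)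
  have h2 : k ∈ ({a, b, c, d, e, f} : Finset (Fin 6)) := by rw [h1]; exact mem_univ k
  simpa using h2

lemma card6 {a b c d e f : Fin 6} (h1 : a ≠ b) (h2 : a ≠ c) (h3 : a ≠ d) (h4 : a ≠ e) (h5 : a ≠ f)
    (h6 : b ≠ c) (h7 : b ≠ d) (h8 : b ≠ e) (h9 : b ≠ f) (h10 : c ≠ d) (h11 : c ≠ e) (h12 : c ≠ f)
    (h13 : d ≠ e) (h14 : d ≠ f) (h15 : e ≠ f) :
    ({a, b, c, d, e, f} : Finset (Fin 6)).card = 6 := by
  rw [card_insert_of_notMem, card_insert_of_notMem, card_insert_of_notMem, card_insert_of_notMem,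
    card_insert_of_notMem, card_singleton] <;> simp [*]

/-- indicator of the colour pair `l, m` -/
def bet (c : ℂ → Fin 6) (l m : Fin 6) (u v : ℂ) : ZMod 2 :=
  if (c u = l ∧ c v = m) ∨ (c u = m ∧ c v = l) then 1 else 0

lemma bet_symm (c : ℂ → Fin 6) (l m : Fin 6) (u v : ℂ) : bet c l m u v = bet c l m v u := by
  unfold bet
  congr 1
  apply propext
  tauto

lemma bet_self (c : ℂ → Fin 6) {l m : Fin 6} (h : l ≠ m) (u : ℂ) : bet c l m u u = 0 := by
  unfold bet
  rw [if_neg]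
  rintro (⟨h1, h2⟩ | ⟨h1, h2⟩)
  · exact h (h1.symm.trans h2)
  · exact h (h2.symm.trans h1)

/-- the situation around a point seeing three colours -/
structure Seen (c : ℂ → Fin 6) (r s : ℝ) (y : ℂ) (X : Fin 3 → ℂ) (l m : Fin 6) : Prop where
  G : Good c r s
  hX : ∀ i, ‖X i - y‖ ≤ 2
  inj : Function.Injective (fun i => c (X i))
  hl : ∀ i, c (X i) ≠ l
  hm : ∀ i, c (X i) ≠ m
  hlm : l ≠ m

lemma Seen.avoid {c : ℂ → Fin 6} {r s : ℝ} {y : ℂ} {X : Fin 3 → ℂ} {l m : Fin 6}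
    (S : Seen c r s y X l m) {u : ℂ} (hu : |‖u - y‖ - r| ≤ 50) (i : Fin 3) : c u ≠ c (X i) := by
  have hs := S.G.hs
  have hr := S.G.hr
  have e1 : ‖u - y‖ ≤ ‖u - X i‖ + ‖X i - y‖ := norm_sub_le_norm_sub_add_norm_sub u (X i) y
  have e2 : ‖u - X i‖ ≤ ‖u - y‖ + ‖y - X i‖ := norm_sub_le_norm_sub_add_norm_sub u y (X i)
  rw [norm_sub_rev y (X i)] at e2
  have := S.hX i
  rw [abs_le] at hu
  exact S.G.h u (X i) (by linarith) (by linarith)

lemma Seen.cc {c : ℂ → Fin 6} {r s : ℝ} {y : ℂ} {X : Fin 3 → ℂ} {l m : Fin 6}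
    (S : Seen c r s y X l m) {u v w : ℂ} (hu : |‖u - y‖ - r| ≤ 50) (hv : |‖v - y‖ - r| ≤ 50)
    (hw : |‖w - y‖ - r| ≤ 50) (huv : ‖u - v‖ ≤ 20) (huw : ‖u - w‖ ≤ 20) :
    bet c l m u v + bet c l m v w = bet c l m u w := by
  have hs := S.G.hs
  have hr := S.G.hr
  by_cases h1 : c u = c v
  · have e1 : bet c l m u v = 0 := by
      unfold bet
      rw [if_neg]
      rintro (⟨a1, a2⟩ | ⟨a1, a2⟩)
      · exact S.hlm (a1.symm.trans (h1.trans a2))
      · exact S.hlm (a2.symm.trans (h1.symm.trans a1))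
    have e2 : bet c l m u w = bet c l m v w := by
      unfold bet
      rw [h1]
    rw [e1, e2, zero_add]
  by_cases h2 : c v = c w
  · have e1 : bet c l m v w = 0 := by
      unfold bet
      rw [if_neg]
      rintro (⟨a1, a2⟩ | ⟨a1, a2⟩)
      · exact S.hlm (a1.symm.trans (h2.trans a2))
      · exact S.hlm (a2.symm.trans (h2.symm.trans a1))
    have e2 : bet c l m u w = bet c l m u v := by
      unfold bet
      rw [h2]
    rw [e1, e2, add_zero]
  by_cases h3 : c u = c w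
  · have e1 : bet c l m u w = 0 := by
      unfold bet
      rw [if_neg]
      rintro (⟨a1, a2⟩ | ⟨a1, a2⟩)
      · exact S.hlm (a1.symm.trans (h3.trans a2))
      · exact S.hlm (a2.symm.trans (h3.symm.trans a1))
    have e2 : bet c l m v w = bet c l m u v := by
      rw [bet_symm c l m v w]
      unfold bet
      rw [h3]
    rw [e1, e2]
    exact zmod2_add_self _
  · exfalso
    have hcard := card6 (a := c (X 0)) (b := c (X 1)) (c := c (X 2)) (d := c u) (e := c v) (f := c w)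
      (fun h => absurd (S.inj h) (by decide)) (fun h => absurd (S.inj h) (by decide))
      (S.avoid hu 0).symm (S.avoid hv 0).symm (S.avoid hw 0).symm
      (fun h => absurd (S.inj h) (by decide))
      (S.avoid hu 1).symm (S.avoid hv 1).symm (S.avoid hw 1).symm
      (S.avoid hu 2).symm (S.avoid hv 2).symm (S.avoid hw 2).symm h1 h3 h2
    have := S.G.cover_far y u X ![u, v, w] (fun i => (S.hX i).trans (by norm_num))
      (by
        intro i
        fin_cases i
        · simp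
        · simp only [Fin.mk_one, Matrix.cons_val_one, Matrix.cons_val_zero]
          rw [norm_sub_rev]; exact huv
        · simp only [Fin.reduceFinMk, Matrix.cons_val]
          rw [norm_sub_rev]; exact huw)
      (by
        intro k
        rcases cover6 hcard k with h | h | h | h | h | h
        · exact Or.inl ⟨0, h.symm⟩
        · exact Or.inl ⟨1, h.symm⟩
        · exact Or.inl ⟨2, h.symm⟩
        · exact Or.inr ⟨0, h.symm⟩
        · exact Or.inr ⟨1, h.symm⟩
        · exact Or.inr ⟨2, h.symm⟩)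
    rw [norm_sub_rev] at this
    rw [abs_le] at hu
    linarith

/-- the circle -/
noncomputable def gam (y : ℂ) (r θ : ℝ) : ℂ := y + r * Complex.exp (Complex.I * θ)

lemma gam_norm {y : ℂ} {r : ℝ} (hr : 0 ≤ r) (θ : ℝ) : ‖gam y r θ - y‖ = r := by
  unfold gam
  rw [add_sub_cancel_left, norm_mul, Complex.norm_exp_I_mul_ofReal, mul_one, Complex.norm_real,
    Real.norm_of_nonneg hr]

lemma gam_dist {y : ℂ} {r : ℝ} (hr : 0 ≤ r) (θ θ' : ℝ) :
    ‖gam y r θ - gam y r θ'‖ = r * ‖2 * Real.sin ((θ - θ') / 2)‖ := by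
  have e : gam y r θ - gam y r θ' =
      r * (Complex.exp (Complex.I * θ') * (Complex.exp (Complex.I * ((θ - θ' : ℝ) : ℂ)) - 1)) := by
    unfold gam
    rw [mul_sub, ← Complex.exp_add]
    push_cast
    ring_nf
  rw [e, norm_mul, norm_mul, Complex.norm_exp_I_mul_ofReal, one_mul,
    Complex.norm_exp_I_mul_ofReal_sub_one, Complex.norm_real, Real.norm_of_nonneg hr]

lemma gam_dist_le {y : ℂ} {r : ℝ} (hr : 0 ≤ r) (θ θ' : ℝ) :
    ‖gam y r θ - gam y r θ'‖ ≤ r * |θ - θ'| := by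
  rw [gam_dist hr]
  apply mul_le_mul_of_nonneg_left _ hr
  rw [Real.norm_eq_abs, abs_mul, abs_two]
  have := Real.abs_sin_le_abs (x := (θ - θ') / 2)
  rw [abs_div, abs_two] at this
  linarith

lemma gam_sixty {y : ℂ} {r : ℝ} (hr : 0 ≤ r) (θ : ℝ) :
    ‖gam y r (θ + Real.pi / 3) - gam y r θ‖ = r := by
  rw [gam_dist hr]
  have : (θ + Real.pi / 3 - θ) / 2 = Real.pi / 6 := by ring
  rw [this, Real.sin_pi_div_six]
  norm_num

lemma gam_periodic {y : ℂ} {r : ℝ} (θ : ℝ) : gam y r (θ + 2 * Real.pi) = gam y r θ := by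
  unfold gam
  have : Complex.I * ((θ + 2 * Real.pi : ℝ) : ℂ) = Complex.I * θ + 2 * Real.pi * Complex.I := by
    push_cast; ring
  rw [this, Complex.exp_periodic]

end Pool.Agent.Lib_helper53.Thick
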