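import Mathlib
import Pool.Agent.Lib_helper53.Thick.Circle

set_option autoImplicit false

/-!
# The number of colour changes around a point seeing three colours is odd
-/

namespace Pool.Agent.Lib_helper53.Thick

open Finset

/-- angular step number -/
noncomputable def nn (r : ℝ) : ℕ := ⌈r⌉₊

/-- the sample points on the circle -/
noncomputable def pp (y : ℂ) (r : ℝ) (t : ℕ) : ℂ :=
  gam y r (-Real.pi + 2 * Real.pi * t / (6 * nn r))

lemma nn_pos {r : ℝ} (hr : 100 ≤ r) : (100 : ℝ) ≤ nn r := hr.trans (Nat.le_ceil r)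

lemma r_le_nn (r : ℝ) : r ≤ nn r := Nat.le_ceil r

lemma pp_per {y : ℂ} {r : ℝ} (hr : 100 ≤ r) (t : ℕ) : pp y r (t + 6 * nn r) = pp y r t := by
  have hn := nn_pos hr
  unfold pp
  rw [← gam_periodic (-Real.pi + 2 * Real.pi * t / (6 * nn r))]
  congr 1
  push_cast
  field_simp
  ring

lemma pp_sixty {y : ℂ} {r : ℝ} (hr : 100 ≤ r) (t : ℕ) :
    ‖pp y r (t + nn r) - pp y r t‖ = r := by
  have hn := nn_pos hr
  unfold pp
  have e : -Real.pi + 2 * Real.pi * ((t + nn r : ℕ) : ℝ) / (6 * nn r) =
    (-Real.pi + 2 * Real.pi * t / (6 * nn r)) + Real.pi / 3 := by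
    push_cast
    field_simp
    ring
  rw [e, gam_sixty (by linarith)]

lemma pp_step {y : ℂ} {r : ℝ} (hr : 100 ≤ r) (t : ℕ) :
    ‖pp y r (t + 1) - pp y r t‖ ≤ 2 := by
  have hn := nn_pos hr
  have hn2 := r_le_nn r
  unfold pp
  apply (gam_dist_le (by linarith) _ _).trans
  have e : -Real.pi + 2 * Real.pi * ((t + 1 : ℕ) : ℝ) / (6 * nn r) -
    (-Real.pi + 2 * Real.pi * t / (6 * nn r)) = Real.pi / (3 * nn r) := by
    push_cast
    field_simp
    ring
  rw [e, abs_of_nonneg (by positivity)]
  have hp := Real.pi_lt_four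
  rw [← mul_div_assoc, div_le_iff₀ (by positivity)]
  nlinarith [Real.pi_pos]

lemma pp_norm {y : ℂ} {r : ℝ} (hr : 0 ≤ r) (t : ℕ) : ‖pp y r t - y‖ = r := gam_norm hr _

/-- third colour is unique -/
lemma Seen.third {c : ℂ → Fin 6} {r s : ℝ} {y : ℂ} {X : Fin 3 → ℂ} {l m : Fin 6}
    (S : Seen c r s y X l m) {a b : Fin 6} (ha : ∀ i, a ≠ c (X i)) (hb : ∀ i, b ≠ c (X i))
    (hal : a ≠ l) (ham : a ≠ m) (hbl : b ≠ l) (hbm : b ≠ m) : a = b := by
  have hcard := card6 (a := c (X 0)) (b := c (X 1)) (c := c (X 2)) (d := l) (e := m) (f := a)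
      (fun h => absurd (S.inj h) (by decide)) (fun h => absurd (S.inj h) (by decide))
      (S.hl 0) (S.hm 0) (ha 0).symm
      (fun h => absurd (S.inj h) (by decide))
      (S.hl 1) (S.hm 1) (ha 1).symm
      (S.hl 2) (S.hm 2) (ha 2).symm S.hlm hal.symm ham.symm
  rcases cover6 hcard b with h | h | h | h | h | h
  · exact absurd h (hb 0)
  · exact absurd h (hb 1)
  · exact absurd h (hb 2)
  · exact absurd h hbl
  · exact absurd h hbm
  · exact h.symm

/-- the total number of changes between `l` and `m` along the circle is odd -/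
lemma Seen.total {c : ℂ → Fin 6} {r s : ℝ} {y : ℂ} {X : Fin 3 → ℂ} {l m : Fin 6}
    (S : Seen c r s y X l m) :
    ∑ t ∈ range (6 * nn r), bet c l m (pp y r t) (pp y r (t + 1)) = 1 := by
  have hs := S.G.hs
  have hr := S.G.hr
  have hr0 : 0 ≤ r := by linarith
  have hr1 : 100 ≤ r := by linarith
  set κ : Fin 6 → ZMod 3 := fun a => if a = l then 0 else if a = m then 1 else 2 with hκ
  have hav : ∀ t i, c (pp y r t) ≠ c (X i) := by
    intro t i
    apply S.avoid
    rw [pp_norm hr0, sub_self, abs_zero]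
    norm_num
  have hκinj : ∀ a b : Fin 6, (∀ i, a ≠ c (X i)) → (∀ i, b ≠ c (X i)) → κ a = κ b → a = b := by
    intro a b ha hb hab
    simp only [hκ] at hab
    by_cases h1 : a = l
    · by_cases h2 : b = l
      · rw [h1, h2]
      · rw [if_pos h1, if_neg h2] at hab
        by_cases h3 : b = m
        · rw [if_pos h3] at hab
          exact absurd hab (by decide)
        · rw [if_neg h3] at hab
          exact absurd hab (by decide)
    · by_cases h2 : b = l
      · rw [if_neg h1, if_pos h2] at hab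
        by_cases h3 : a = m
        · rw [if_pos h3] at hab
          exact absurd hab (by decide)
        · rw [if_neg h3] at hab
          exact absurd hab (by decide)
      · rw [if_neg h1, if_neg h2] at hab
        by_cases h3 : a = m
        · by_cases h4 : b = m
          · rw [h3, h4]
          · rw [if_pos h3, if_neg h4] at hab
            exact absurd hab (by decide)
        · by_cases h4 : b = m
          · rw [if_neg h3, if_pos h4] at hab
            exact absurd hab (by decide)
          · exact S.third ha hb h1 h3 h2 h4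
  have hdist1 : ∀ t, ‖pp y r (t + nn r) - pp y r t‖ = r := pp_sixty hr1
  have hseq := seq_parity (nn r) (fun t => κ (c (pp y r t)))
    (by intro t; rw [pp_per hr1])
    (by
      intro t h
      refine S.G.h _ _ ?_ ?_ (hκinj _ _ (hav _) (hav _) h) <;> rw [hdist1] <;> linarith)
    (by
      intro t h
      have e1 := hdist1 t
      have e2 := pp_step (y := y) hr1 (t + nn r)
      have e3 := norm_sub_le_norm_sub_add_norm_sub (pp y r (t + nn r + 1)) (pp y r (t + nn r))
        (pp y r t)
      have e4 := norm_sub_le_norm_sub_add_norm_sub (pp y r (t + nn r)) (pp y r (t + nn r + 1))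
        (pp y r t)
      rw [norm_sub_rev (pp y r (t + nn r)) (pp y r (t + nn r + 1))] at e4
      refine S.G.h _ _ ?_ ?_ (hκinj _ _ (hav _) (hav _) h) <;> linarith)
    (by
      intro t h
      have e1 := hdist1 t
      have e2 := pp_step (y := y) hr1 t
      have e3 := norm_sub_le_norm_sub_add_norm_sub (pp y r (t + nn r)) (pp y r t)
        (pp y r (t + 1))
      have e4 := norm_sub_le_norm_sub_add_norm_sub (pp y r (t + nn r)) (pp y r (t + 1))
        (pp y r t)
      rw [norm_sub_rev (pp y r t) (pp y r (t + 1))] at e3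
      refine S.G.h _ _ ?_ ?_ (hκinj _ _ (hav _) (hav _) h) <;> linarith)
  rw [← hseq]
  apply sum_congr rfl
  intro t _
  unfold bet
  have hk0 : ∀ a, κ a = 0 ↔ a = l := by
    intro a
    simp only [hκ]
    by_cases h1 : a = l
    · simp [h1]
    · rw [if_neg h1]
      by_cases h2 : a = m
      · rw [if_pos h2]; exact ⟨fun h => absurd h (by decide), fun h => absurd h h1⟩
      · rw [if_neg h2]; exact ⟨fun h => absurd h (by decide), fun h => absurd h h1⟩
  have hk1 : ∀ a, κ a = 1 ↔ a = m := by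
    intro a
    simp only [hκ]
    by_cases h1 : a = l
    · rw [if_pos h1]
      exact ⟨fun h => absurd h (by decide), fun h => absurd (h1.symm.trans h) S.hlm⟩
    · rw [if_neg h1]
      by_cases h2 : a = m
      · rw [if_pos h2]; exact ⟨fun _ => h2, fun _ => rfl⟩
      · rw [if_neg h2]; exact ⟨fun h => absurd h (by decide), fun h => absurd h h2⟩
  simp only [hk0, hk1]

/-- potential along the cut circle -/
noncomputable def idx (r θ : ℝ) : ℕ := ⌊(θ + Real.pi) * (6 * nn r) / (2 * Real.pi)⌋₊

noncomputable def pot (c : ℂ → Fin 6) (l m : Fin 6) (y : ℂ) (r θ : ℝ) : ZMod 2 :=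
  ∑ t ∈ range (idx r θ), bet c l m (pp y r t) (pp y r (t + 1)) +
    bet c l m (pp y r (idx r θ)) (gam y r θ)

lemma idx_bounds {r θ : ℝ} (hr : 100 ≤ r) (hθ : -Real.pi ≤ θ) :
    0 ≤ θ - (-Real.pi + 2 * Real.pi * (idx r θ) / (6 * nn r)) ∧
    θ - (-Real.pi + 2 * Real.pi * (idx r θ) / (6 * nn r)) ≤ 2 / r := by
  have hn := nn_pos hr
  have hn2 := r_le_nn r
  have hp := Real.pi_pos
  have h0 : 0 ≤ (θ + Real.pi) * (6 * nn r) / (2 * Real.pi) := by
    have : 0 ≤ θ + Real.pi := by linarith
    positivity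
  have h1 := Nat.floor_le h0
  have h2 := Nat.lt_floor_add_one ((θ + Real.pi) * (6 * nn r) / (2 * Real.pi))
  change ((idx r θ : ℕ) : ℝ) ≤ _ at h1
  change _ < ((idx r θ : ℕ) : ℝ) + 1 at h2
  rw [le_div_iff₀ (by positivity)] at h1
  rw [div_lt_iff₀ (by positivity)] at h2
  have hN : (0 : ℝ) < 6 * nn r := by positivity
  have e1 : 2 * Real.pi * (idx r θ) / (6 * nn r) ≤ θ + Real.pi := by
    rw [div_le_iff₀ hN]; linarith
  have e2 : θ + Real.pi - 2 * Real.pi * (idx r θ) / (6 * nn r) ≤ 2 * Real.pi / (6 * nn r) := by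
    rw [sub_le_iff_le_add, ← add_div, le_div_iff₀ hN]
    nlinarith
  have e3 : 2 * Real.pi / (6 * nn r) ≤ 2 / r := by
    rw [div_le_div_iff₀ hN (by linarith)]
    have := Real.pi_lt_four
    nlinarith
  constructor <;> linarith

lemma idx_mono {r θ θ' : ℝ} (h : θ ≤ θ') : idx r θ ≤ idx r θ' := by
  unfold idx
  apply Nat.floor_le_floor
  have hp := Real.pi_pos
  apply div_le_div_of_nonneg_right _ (by positivity)
  apply mul_le_mul_of_nonneg_right (by linarith)
  positivity

/-- additivity of `bet` along nearby points of the circle -/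
lemma Seen.pot_diff {c : ℂ → Fin 6} {r s : ℝ} {y : ℂ} {X : Fin 3 → ℂ} {l m : Fin 6}
    (S : Seen c r s y X l m) {θ θ' : ℝ} (h0 : -Real.pi ≤ θ) (h1 : θ ≤ θ')
    (h2 : θ' - θ ≤ 15 / r) :
    bet c l m (gam y r θ) (gam y r θ') = pot c l m y r θ + pot c l m y r θ' := by
  have hs := S.G.hs
  have hr := S.G.hr
  have hr0 : 0 ≤ r := by linarith
  have hrpos : 0 < r := by linarith
  have hr1 : 100 ≤ r := by linarith
  have hN := nn_pos hr1
  have hNpos : (0 : ℝ) < 6 * nn r := by positivity
  have hpi := Real.pi_pos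
  obtain ⟨k, hk⟩ := Nat.exists_eq_add_of_le (idx_mono (r := r) h1)
  obtain ⟨b1, b2⟩ := idx_bounds hr1 h0
  obtain ⟨b3, b4⟩ := idx_bounds hr1 (h0.trans h1)
  have onc : ∀ t, |‖pp y r t - y‖ - r| ≤ 50 := by
    intro t; rw [pp_norm hr0, sub_self, abs_zero]; norm_num
  have ong : ∀ t, |‖gam y r t - y‖ - r| ≤ 50 := by
    intro t; rw [gam_norm hr0, sub_self, abs_zero]; norm_num
  -- distances between the intermediate points and gam θ
  have hdist : ∀ j ≤ k, ‖gam y r θ - pp y r (idx r θ + j)‖ ≤ 20 := by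
    intro j hj
    unfold pp
    apply (gam_dist_le hr0 _ _).trans
    have hj' : ((idx r θ + j : ℕ) : ℝ) ≤ (idx r θ' : ℝ) := by
      rw [hk]; exact_mod_cast Nat.add_le_add_left hj _
    have hj0 : (idx r θ : ℝ) ≤ ((idx r θ + j : ℕ) : ℝ) := by exact_mod_cast Nat.le_add_right _ _
    have c1 : 2 * Real.pi * (idx r θ) / (6 * nn r) ≤
        2 * Real.pi * ((idx r θ + j : ℕ) : ℝ) / (6 * nn r) := by
      apply div_le_div_of_nonneg_right _ hNpos.le
      apply mul_le_mul_of_nonneg_left hj0 (by positivity)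
    have c2 : 2 * Real.pi * ((idx r θ + j : ℕ) : ℝ) / (6 * nn r) ≤
        2 * Real.pi * (idx r θ') / (6 * nn r) := by
      apply div_le_div_of_nonneg_right _ hNpos.le
      apply mul_le_mul_of_nonneg_left hj' (by positivity)
    have c3 : |θ - (-Real.pi + 2 * Real.pi * ((idx r θ + j : ℕ) : ℝ) / (6 * nn r))| ≤ 17 / r := by
      have d1 : 2 / r + 15 / r = 17 / r := by rw [← add_div]; norm_num
      have d2 : 0 ≤ 15 / r := by positivity
      have d3 : 0 ≤ 2 / r := by positivity
      rw [abs_le]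
      constructor <;> linarith
    calc r * |θ - (-Real.pi + 2 * Real.pi * ((idx r θ + j : ℕ) : ℝ) / (6 * nn r))|
        ≤ r * (17 / r) := mul_le_mul_of_nonneg_left c3 hr0
      _ = 17 := by field_simp
      _ ≤ 20 := by norm_num
  have hind : ∀ j ≤ k, bet c l m (gam y r θ) (pp y r (idx r θ + j)) =
      bet c l m (pp y r (idx r θ)) (gam y r θ) +
      ∑ t ∈ range j, bet c l m (pp y r (idx r θ + t)) (pp y r (idx r θ + t + 1)) := by
    intro j
    induction j with
    | zero =>
      intro _
      simp only [add_zero, range_zero, sum_empty]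
      exact bet_symm _ _ _ _ _
    | succ j ih =>
      intro hj
      rw [sum_range_succ, ← add_assoc (bet c l m (pp y r (idx r θ)) (gam y r θ)), ← ih (by omega)]
      exact (S.cc (ong θ) (onc _) (onc _) (hdist j (by omega)) (hdist (j + 1) hj)).symm
  have hlast : bet c l m (gam y r θ) (pp y r (idx r θ')) + bet c l m (pp y r (idx r θ'))
      (gam y r θ') = bet c l m (gam y r θ) (gam y r θ') := by
    apply S.cc (ong θ) (onc _) (ong θ')
    · have := hdist k le_rfl
      rwa [← hk] at this
    · apply (gam_dist_le hr0 _ _).trans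
      rw [abs_sub_comm, abs_of_nonneg (by linarith)]
      calc r * (θ' - θ) ≤ r * (15 / r) := mul_le_mul_of_nonneg_left h2 hr0
        _ = 15 := by field_simp
        _ ≤ 20 := by norm_num
  rw [← hlast]
  have h3 := hind k le_rfl
  rw [← hk] at h3
  rw [h3]
  unfold pot
  rw [hk, sum_range_add]
  have h4 := zmod2_add_self (∑ t ∈ range (idx r θ), bet c l m (pp y r t) (pp y r (t + 1)))
  linear_combination -h4

lemma Seen.pot_left {c : ℂ → Fin 6} {r s : ℝ} {y : ℂ} {X : Fin 3 → ℂ} {l m : Fin 6}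
    (S : Seen c r s y X l m) : pot c l m y r (-Real.pi) = 0 := by
  unfold pot idx pp
  simp [bet_self c S.hlm]

lemma Seen.pot_right {c : ℂ → Fin 6} {r s : ℝ} {y : ℂ} {X : Fin 3 → ℂ} {l m : Fin 6}
    (S : Seen c r s y X l m) : pot c l m y r Real.pi = 1 := by
  have hs := S.G.hs
  have hr := S.G.hr
  have hr1 : 100 ≤ r := by linarith
  have hN := nn_pos hr1
  have hpi := Real.pi_pos
  have e : idx r Real.pi = 6 * nn r := by
    unfold idx
    have : (Real.pi + Real.pi) * (6 * nn r) / (2 * Real.pi) = ((6 * nn r : ℕ) : ℝ) := by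
      push_cast
      field_simp
      ring
    rw [this, Nat.floor_natCast]
  have e2 : pp y r (6 * nn r) = gam y r Real.pi := by
    unfold pp
    congr 1
    push_cast
    field_simp
    ring
  unfold pot
  rw [e, e2, S.total, bet_self c S.hlm, add_zero]

end Pool.Agent.Lib_helper53.Thick
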