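import Mathlib
import Pool.Agent.Lib_helper53.Thick.Circle2

set_option autoImplicit false

/-!
# Counting around a lattice disc
-/

namespace Pool.Agent.Lib_helper53.Thick

open Finset

/-- crossing of the cut -/
def chi (y₀ u v : Pt) : ZMod 2 :=
  if (0 ≤ u.2 - y₀.2 ∧ v.2 - y₀.2 < 0 ∧ u.1 - y₀.1 < 0) ∨
    (0 ≤ v.2 - y₀.2 ∧ u.2 - y₀.2 < 0 ∧ v.1 - y₀.1 < 0) then 1 else 0

lemma chi_symm (y₀ u v : Pt) : chi y₀ u v = chi y₀ v u := by
  unfold chi
  congr 1
  apply propext
  tauto

lemma bd_chi (y₀ : Pt) (τ : Tri) :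
    bd (chi y₀) τ = if τ = ((y₀.1 - 1, y₀.2 - 1), true) then 1 else 0 := by
  obtain ⟨⟨a, b⟩, c⟩ := τ
  obtain ⟨p, q⟩ := y₀
  cases c
  · rw [if_neg (by simp)]
    simp only [bd, chi, vtx, if_true, Matrix.cons_val_zero, Matrix.cons_val_one, Matrix.cons_val]
    split_ifs <;> first | rfl | (exfalso; omega)
  · simp only [bd, chi, vtx, Matrix.cons_val_zero, Matrix.cons_val_one, Matrix.cons_val,
      Prod.mk.injEq, and_true, Bool.true_eq_false, if_false]
    split_ifs <;> first | rfl | (exfalso; omega)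

lemma sum_bd_chi (y₀ : Pt) {r : ℝ} (hr : 100 ≤ r) :
    ∑ τ ∈ disc (ee y₀) r, bd (chi y₀) τ = 1 := by
  rw [Finset.sum_eq_single ((y₀.1 - 1, y₀.2 - 1), true)]
  · rw [bd_chi, if_pos rfl]
  · intro τ _ hne
    rw [bd_chi, if_neg hne]
  · intro h
    exfalso
    apply h
    rw [mem_disc]
    apply lt_of_le_of_lt (norm_ee_le (C := 2) zero_le_two _) (by linarith)
    push_cast
    ring_nf
    norm_num

/-- two angles whose circle points are close -/
lemma angle_close {y : ℂ} {r θ θ' : ℝ} (hr : 100 ≤ r) (h : ‖gam y r θ - gam y r θ'‖ ≤ 7)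
    (h2 : |θ - θ'| ≤ 2 * Real.pi) : |θ - θ'| ≤ 15 / r ∨ 2 * Real.pi - 15 / r ≤ |θ - θ'| := by
  have hpi := Real.pi_pos
  have hpi4 := Real.pi_lt_four
  rw [gam_dist (by linarith)] at h
  have e1 : ‖2 * Real.sin ((θ - θ') / 2)‖ = 2 * |Real.sin ((θ - θ') / 2)| := by
    rw [Real.norm_eq_abs, abs_mul, abs_two]
  have e2 : |Real.sin ((θ - θ') / 2)| = Real.sin (|θ - θ'| / 2) := by
    rcases abs_cases (θ - θ') with ⟨h3, h4⟩ | ⟨h3, h4⟩
    · rw [h3, abs_of_nonneg]
      apply Real.sin_nonneg_of_nonneg_of_le_pi (by linarith)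
      rw [h3] at h2; linarith
    · rw [h3, ← abs_neg, ← Real.sin_neg, abs_of_nonneg]
      · congr 1; ring
      · rw [h3] at h2
        apply Real.sin_nonneg_of_nonneg_of_le_pi <;> linarith
  rw [e1, e2] at h
  have hr0 : 0 < r := by linarith
  by_cases hx : |θ - θ'| / 2 ≤ Real.pi / 2
  · left
    have h3 := Real.mul_le_sin (by positivity) hx
    have h4 : r * (2 * (2 / Real.pi * (|θ - θ'| / 2))) ≤ 7 := by
      refine le_trans ?_ h
      apply mul_le_mul_of_nonneg_left _ hr0.le
      linarith
    have h5 : r * (2 * (2 / Real.pi * (|θ - θ'| / 2))) = (2 * r * |θ - θ'|) / Real.pi := by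
      field_simp
    rw [h5, div_le_iff₀ hpi] at h4
    rw [le_div_iff₀ hr0]
    nlinarith
  · right
    push Not at hx
    have h3 := Real.mul_le_sin (x := Real.pi - |θ - θ'| / 2) (by linarith) (by linarith)
    rw [Real.sin_pi_sub] at h3
    have h4 : r * (2 * (2 / Real.pi * (Real.pi - |θ - θ'| / 2))) ≤ 7 := by
      refine le_trans ?_ h
      apply mul_le_mul_of_nonneg_left _ hr0.le
      linarith
    have h5 : r * (2 * (2 / Real.pi * (Real.pi - |θ - θ'| / 2))) =
        (2 * r * (2 * Real.pi - |θ - θ'|)) / Real.pi := by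
      field_simp
    rw [h5, div_le_iff₀ hpi] at h4
    have h6 : 2 * Real.pi - |θ - θ'| ≤ 15 / r := by
      rw [le_div_iff₀ hr0]
      nlinarith
    linarith

lemma gam_arg {y z : ℂ} {r : ℝ} (hr : 0 ≤ r) : ‖z - gam y r (Complex.arg (z - y))‖ =
    |‖z - y‖ - r| := by
  have e := Complex.norm_mul_exp_arg_mul_I (z - y)
  have e2 : z - gam y r (Complex.arg (z - y)) =
      ((‖z - y‖ - r : ℝ) : ℂ) * Complex.exp (Complex.I * (Complex.arg (z - y))) := by
    unfold gam
    rw [mul_comm Complex.I]
    push_cast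
    linear_combination -e
  rw [e2, norm_mul, Complex.norm_exp_I_mul_ofReal, mul_one, Complex.norm_real, Real.norm_eq_abs]

/-- potential of a point near the circle -/
noncomputable def hpot (c : ℂ → Fin 6) (l m : Fin 6) (y : ℂ) (r : ℝ) (z : ℂ) : ZMod 2 :=
  pot c l m y r (Complex.arg (z - y)) + bet c l m z (gam y r (Complex.arg (z - y)))

section

variable {c : ℂ → Fin 6} {r s : ℝ} {y : ℂ} {X : Fin 3 → ℂ} {l m : Fin 6}

lemma Seen.bet_three (S : Seen c r s y X l m) {z w : ℂ} (hz : |‖z - y‖ - r| ≤ 3)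
    (hw : |‖w - y‖ - r| ≤ 3) (hzw : ‖z - w‖ ≤ 1) :
    bet c l m z w = bet c l m z (gam y r (Complex.arg (z - y))) +
      bet c l m (gam y r (Complex.arg (z - y))) (gam y r (Complex.arg (w - y))) +
      bet c l m w (gam y r (Complex.arg (w - y))) ∧
    ‖gam y r (Complex.arg (z - y)) - gam y r (Complex.arg (w - y))‖ ≤ 7 := by
  have hs := S.G.hs
  have hr := S.G.hr
  have hr0 : 0 ≤ r := by linarith
  have d1 : ‖z - gam y r (Complex.arg (z - y))‖ ≤ 3 := by rw [gam_arg hr0]; exact hz
  have d2 : ‖w - gam y r (Complex.arg (w - y))‖ ≤ 3 := by rw [gam_arg hr0]; exact hw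
  set z' := gam y r (Complex.arg (z - y)) with hz'
  set w' := gam y r (Complex.arg (w - y)) with hw'
  have hzz : |‖z' - y‖ - r| ≤ 50 := by rw [hz', gam_norm hr0, sub_self, abs_zero]; norm_num
  have hww : |‖w' - y‖ - r| ≤ 50 := by rw [hw', gam_norm hr0, sub_self, abs_zero]; norm_num
  have d3 : ‖z' - w‖ ≤ 4 := by
    have := norm_sub_le_norm_sub_add_norm_sub z' z w
    rw [norm_sub_rev z' z] at this
    linarith
  have d4 : ‖z' - w'‖ ≤ 7 := by
    have := norm_sub_le_norm_sub_add_norm_sub z' w w'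
    linarith
  refine ⟨?_, d4⟩
  have e1 := S.cc (u := z) (v := z') (w := w) (hz.trans (by norm_num)) hzz
    (hw.trans (by norm_num)) (by linarith) (by linarith)
  have e2 := S.cc (u := z') (v := w') (w := w) hzz hww
    (hw.trans (by norm_num)) (by linarith) (by linarith)
  rw [← e1, ← e2, bet_symm c l m w w', add_assoc]

lemma Seen.near_case (S : Seen c r s y X l m) {z w : ℂ} (hz : |‖z - y‖ - r| ≤ 3)
    (hw : |‖w - y‖ - r| ≤ 3) (hzw : ‖z - w‖ ≤ 1)
    (h : |Complex.arg (z - y) - Complex.arg (w - y)| ≤ 15 / r) :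
    bet c l m z w = hpot c l m y r z + hpot c l m y r w := by
  obtain ⟨e1, _⟩ := S.bet_three hz hw hzw
  rw [e1]
  unfold hpot
  have e2 : bet c l m (gam y r (Complex.arg (z - y))) (gam y r (Complex.arg (w - y))) =
      pot c l m y r (Complex.arg (z - y)) + pot c l m y r (Complex.arg (w - y)) := by
    rcases le_total (Complex.arg (z - y)) (Complex.arg (w - y)) with h1 | h1
    · apply S.pot_diff (Complex.neg_pi_lt_arg _).le h1
      rw [abs_sub_comm, abs_of_nonneg (by linarith)] at h
      exact h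
    · rw [bet_symm, add_comm]
      apply S.pot_diff (Complex.neg_pi_lt_arg _).le h1
      rw [abs_of_nonneg (by linarith)] at h
      exact h
  rw [e2]
  ring

lemma Seen.far_case (S : Seen c r s y X l m) {z w : ℂ} (hz : |‖z - y‖ - r| ≤ 3)
    (hw : |‖w - y‖ - r| ≤ 3) (hzw : ‖z - w‖ ≤ 1)
    (h1 : Real.pi - 15 / r ≤ Complex.arg (z - y)) (h2 : Complex.arg (w - y) ≤ -Real.pi + 15 / r) :
    bet c l m z w = hpot c l m y r z + hpot c l m y r w + 1 := by
  have hs := S.G.hs
  have hr := S.G.hr
  have hr0 : 0 ≤ r := by linarith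
  obtain ⟨e1, _⟩ := S.bet_three hz hw hzw
  rw [e1]
  unfold hpot
  have hpi := Real.pi_pos
  have a1 := Complex.neg_pi_lt_arg (z - y)
  have a2 := Complex.arg_le_pi (z - y)
  have a3 := Complex.neg_pi_lt_arg (w - y)
  have e2 := S.pot_diff (θ := Complex.arg (z - y)) (θ' := Real.pi) a1.le a2 (by linarith)
  have e3 := S.pot_diff (θ := -Real.pi) (θ' := Complex.arg (w - y)) le_rfl a3.le (by linarith)
  have e4 : gam y r (-Real.pi) = gam y r Real.pi := by
    rw [← gam_periodic (-Real.pi)]
    congr 1; ring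
  rw [S.pot_right] at e2
  rw [S.pot_left, e4] at e3
  have on : ∀ t, |‖gam y r t - y‖ - r| ≤ 50 := by
    intro t; rw [gam_norm hr0, sub_self, abs_zero]; norm_num
  have hrpos : 0 < r := by linarith
  have e5 := S.cc (on (Complex.arg (z - y))) (on Real.pi) (on (Complex.arg (w - y)))
    (by
      apply (gam_dist_le hr0 _ _).trans
      rw [abs_sub_comm, abs_of_nonneg (by linarith)]
      calc r * (Real.pi - Complex.arg (z - y)) ≤ r * (15 / r) :=
            mul_le_mul_of_nonneg_left (by linarith) hr0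
        _ = 15 := by field_simp
        _ ≤ 20 := by norm_num)
    ((S.bet_three hz hw hzw).2.trans (by norm_num))
  rw [← e5, e2, e3]
  ring

end

/-- the count of colour changes between `l` and `m` around a lattice disc is odd -/
theorem odd_count {c : ℂ → Fin 6} {r s : ℝ} {y₀ : Pt} {X : Fin 3 → ℂ} {l m : Fin 6}
    (S : Seen c r s (ee y₀) X l m) :
    ∑ τ ∈ disc (ee y₀) r, bd (fun u v => bet c l m (ee u) (ee v)) τ = 1 := by
  have hs := S.G.hs
  have hr := S.G.hr
  have hr1 : 100 ≤ r := by linarith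
  have hr0 : 0 ≤ r := by linarith
  have hpi := Real.pi_gt_three
  have h15 : 15 / r ≤ 1 := by rw [div_le_one (by linarith)]; linarith
  set H : Pt → ZMod 2 := fun u => hpot c l m (ee y₀) r (ee u) with hH
  set β' : Pt → Pt → ZMod 2 := fun u v => bet c l m (ee u) (ee v) + (H u + H v) + chi y₀ u v
    with hβ'
  have key : ∑ τ ∈ disc (ee y₀) r, bd β' τ = 0 := by
    apply sum_bd_eq_zero
    · intro u v
      simp only [hβ']
      rw [bet_symm, chi_symm, add_comm (H u)]
    · intro τ hτ d hd
      rw [mem_disc] at hτ hd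
      push Not at hd
      have hb := nb_base d τ
      have hbase : |‖ee τ.1 - ee y₀‖ - r| ≤ 1 := by
        have := norm_sub_le_norm_sub_add_norm_sub (ee (nb d τ).1) (ee τ.1) (ee y₀)
        rw [abs_le]
        constructor <;> linarith
      have hv : ∀ i, |‖ee (vtx τ i) - ee y₀‖ - r| ≤ 3 := by
        intro i
        have h1 := vtx_base τ i
        have h2 := norm_sub_le_norm_sub_add_norm_sub (ee (vtx τ i)) (ee τ.1) (ee y₀)
        have h3 := norm_sub_le_norm_sub_add_norm_sub (ee τ.1) (ee (vtx τ i)) (ee y₀)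
        rw [norm_sub_rev (ee τ.1) (ee (vtx τ i))] at h3
        rw [abs_le] at hbase ⊢
        constructor <;> linarith [hbase.1, hbase.2]
      have hcoord : ∀ i j, |(vtx τ i).2 - (vtx τ j).2| ≤ 1 := by
        intro i j
        obtain ⟨⟨a, b⟩, o⟩ := τ
        fin_cases i <;> fin_cases j <;> cases o <;> simp [vtx]
      set u := vtx τ (d + 1) with hu
      set v := vtx τ (d + 2) with hv'
      have huv : ‖ee u - ee v‖ ≤ 1 := vtx_dist τ _ _
      have hzu := hv (d + 1)
      have hzv := hv (d + 2)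
      rw [← hu] at hzu
      rw [← hv'] at hzv
      have hco : |u.2 - v.2| ≤ 1 := hcoord _ _
      -- real and imaginary parts
      have him : ∀ p : Pt, (ee p - ee y₀).im = ((p.2 - y₀.2 : ℤ) : ℝ) * (√3 / 2) := by
        intro p; simp only [ee, Complex.sub_im]; push_cast; ring
      have hre : ∀ p : Pt, (ee p - ee y₀).re = ((p.1 - y₀.1 : ℤ) : ℝ) +
          ((p.2 - y₀.2 : ℤ) : ℝ) / 2 := by
        intro p; simp only [ee, Complex.sub_re]; push_cast; ring
      have h3 : (0 : ℝ) < √3 / 2 := by positivity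
      have him1 : ∀ p : Pt, 0 ≤ (ee p - ee y₀).arg ↔ 0 ≤ p.2 - y₀.2 := by
        intro p
        rw [Complex.arg_nonneg_iff, him]
        constructor
        · intro h
          by_contra hc
          push Not at hc
          have : ((p.2 - y₀.2 : ℤ) : ℝ) < 0 := by exact_mod_cast hc
          nlinarith
        · intro h
          have : (0 : ℝ) ≤ ((p.2 - y₀.2 : ℤ) : ℝ) := by exact_mod_cast h
          positivity
      have hpi_of : ∀ p : Pt, p.2 - y₀.2 = 0 → p.1 - y₀.1 < 0 → (ee p - ee y₀).arg = Real.pi := by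
        intro p h1 h2
        rw [Complex.arg_eq_pi_iff, him, hre, h1]
        refine ⟨?_, by simp⟩
        have : ((p.1 - y₀.1 : ℤ) : ℝ) < 0 := by exact_mod_cast h2
        simpa using this
      -- crossing points
      have hcross : ∀ p q : Pt, |p.2 - q.2| ≤ 1 → (0 ≤ p.2 - y₀.2 ∧ q.2 - y₀.2 < 0 ∧
          p.1 - y₀.1 < 0) → 1 < |(ee p - ee y₀).arg - (ee q - ee y₀).arg| := by
        rintro p q hpq ⟨h1, h2, h4⟩
        rw [abs_le] at hpq
        have h5 : p.2 - y₀.2 = 0 := by omega
        have h6 := hpi_of p h5 h4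
        have h7 : ¬ 0 ≤ (ee q - ee y₀).arg := by rw [him1]; omega
        push Not at h7
        rw [h6, abs_of_pos (by linarith)]
        linarith
      -- far points
      have hfar : ∀ p q : Pt, |p.2 - q.2| ≤ 1 → |‖ee p - ee y₀‖ - r| ≤ 3 →
          Real.pi - 15 / r ≤ (ee p - ee y₀).arg → (ee q - ee y₀).arg ≤ -Real.pi + 15 / r →
          (0 ≤ p.2 - y₀.2 ∧ q.2 - y₀.2 < 0 ∧ p.1 - y₀.1 < 0) := by
        intro p q hpq hp h1 h2
        have h4 : 0 ≤ p.2 - y₀.2 := by rw [← him1]; linarith
        have h5 : q.2 - y₀.2 < 0 := by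
          by_contra hc
          push Not at hc
          rw [← him1] at hc
          linarith
        rw [abs_le] at hpq
        have h6 : p.2 - y₀.2 = 0 := by omega
        refine ⟨h4, h5, ?_⟩
        by_contra hc
        push Not at hc
        rcases hc.lt_or_eq with h7 | h7
        · have h8 : |(ee p - ee y₀).arg| < Real.pi / 2 := by
            rw [Complex.abs_arg_lt_pi_div_two_iff]
            left
            rw [hre, h6]
            have : (0 : ℝ) < ((p.1 - y₀.1 : ℤ) : ℝ) := by exact_mod_cast h7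
            simpa using this
          rw [abs_lt] at h8
          linarith [h8.2]
        · have h8 : p = y₀ := Prod.ext (by omega) (by omega)
          rw [h8, sub_self, norm_zero, zero_sub, abs_neg, abs_of_nonneg hr0] at hp
          linarith
      obtain ⟨_, h7⟩ := S.bet_three hzu hzv huv
      have hbound : |(ee u - ee y₀).arg - (ee v - ee y₀).arg| ≤ 2 * Real.pi := by
        have b1 := Complex.neg_pi_lt_arg (ee u - ee y₀)
        have b2 := Complex.arg_le_pi (ee u - ee y₀)
        have b3 := Complex.neg_pi_lt_arg (ee v - ee y₀)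
        have b4 := Complex.arg_le_pi (ee v - ee y₀)
        rw [abs_le]
        constructor <;> linarith
      have hvu : |v.2 - u.2| ≤ 1 := by rw [abs_sub_comm]; exact hco
      rcases angle_close hr1 h7 hbound with h8 | h8
      · have e1 := S.near_case hzu hzv huv h8
        have e2 : chi y₀ u v = 0 := by
          unfold chi
          rw [if_neg]
          rintro (h9 | h9)
          · have := hcross u v hco h9
            linarith
          · have := hcross v u hvu h9
            rw [abs_sub_comm] at this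
            linarith
        simp only [hβ']
        rw [e1, e2, add_zero]
        exact zmod2_add_self _
      · have e2 : chi y₀ u v = 1 ∧ bet c l m (ee u) (ee v) = H u + H v + 1 := by
          rcases abs_cases ((ee u - ee y₀).arg - (ee v - ee y₀).arg) with ⟨h9, _⟩ | ⟨h9, _⟩
          · rw [h9] at h8
            have b2 := Complex.arg_le_pi (ee u - ee y₀)
            have b3 := Complex.neg_pi_lt_arg (ee v - ee y₀)
            have c1 : Real.pi - 15 / r ≤ (ee u - ee y₀).arg := by linarith
            have c2 : (ee v - ee y₀).arg ≤ -Real.pi + 15 / r := by linarith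
            refine ⟨?_, S.far_case hzu hzv huv c1 c2⟩
            unfold chi
            rw [if_pos (Or.inl (hfar u v hco hzu c1 c2))]
          · rw [h9] at h8
            have b2 := Complex.arg_le_pi (ee v - ee y₀)
            have b3 := Complex.neg_pi_lt_arg (ee u - ee y₀)
            have c1 : Real.pi - 15 / r ≤ (ee v - ee y₀).arg := by linarith
            have c2 : (ee u - ee y₀).arg ≤ -Real.pi + 15 / r := by linarith
            have hvu' : ‖ee v - ee u‖ ≤ 1 := by rw [norm_sub_rev]; exact huv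
            refine ⟨?_, ?_⟩
            · unfold chi
              rw [if_pos (Or.inr (hfar v u hvu hzv c1 c2))]
            · rw [bet_symm, S.far_case hzv hzu hvu' c1 c2, add_comm (hpot c l m (ee y₀) r (ee v))]
        simp only [hβ']
        rw [e2.1, e2.2]
        have e3 := zmod2_add_self (H u + H v)
        have e4 : (1 : ZMod 2) + 1 = 0 := rfl
        linear_combination e3 + e4
  have hsplit : ∀ τ, bd β' τ = bd (fun u v => bet c l m (ee u) (ee v)) τ + bd (chi y₀) τ := by
    intro τ
    simp only [bd, hβ']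
    have e1 := zmod2_add_self (H (vtx τ 0))
    have e2 := zmod2_add_self (H (vtx τ 1))
    have e3 := zmod2_add_self (H (vtx τ 2))
    linear_combination e1 + e2 + e3
  rw [sum_congr rfl (fun τ _ => hsplit τ), sum_add_distrib, sum_bd_chi y₀ hr1] at key
  have e4 : (1 : ZMod 2) + 1 = 0 := rfl
  linear_combination key - e4

end Pool.Agent.Lib_helper53.Thick
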