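import Mathlib
import Pool.Agent.Lib_helper53.Thick.Circle3

set_option autoImplicit false

/-!
# Types of rainbow triangles and the quadratic form of a 2-cycle on six points
-/

namespace Pool.Agent.Lib_helper53.Thick

open Finset

set_option maxRecDepth 100000 in
/-- the number of complementary pairs in a mod 2 cycle on six points is even -/
theorem quad (y : Finset (Fin 6) → ZMod 2)
    (h : ∀ l m : Fin 6, l ≠ m →
      ∑ n ∈ univ.filter (fun n : Fin 6 => n ≠ l ∧ n ≠ m), y {l, m, n} = 0) :
    ∑ A ∈ univ.filter (fun A : Finset (Fin 6) => A.card = 3 ∧ 0 ∈ A), y A * y Aᶜ = 0 := by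
  have E12 : y {0, 1, 2} + y {1, 2, 3} + y {1, 2, 4} + y {1, 2, 5} = 0 := by
    have := h 1 2 (by decide)
    rw [show (univ.filter (fun n : Fin 6 => n ≠ 1 ∧ n ≠ 2)) = {0, 3, 4, 5} from by decide,
      sum_insert (by decide), sum_insert (by decide), sum_insert (by decide), sum_singleton,
      show ({1, 2, 0} : Finset (Fin 6)) = {0, 1, 2} from by decide] at this
    linear_combination this
  have E13 : y {0, 1, 3} + y {1, 2, 3} + y {1, 3, 4} + y {1, 3, 5} = 0 := by
    have := h 1 3 (by decide)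
    rw [show (univ.filter (fun n : Fin 6 => n ≠ 1 ∧ n ≠ 3)) = {0, 2, 4, 5} from by decide,
      sum_insert (by decide), sum_insert (by decide), sum_insert (by decide), sum_singleton,
      show ({1, 3, 0} : Finset (Fin 6)) = {0, 1, 3} from by decide,
      show ({1, 3, 2} : Finset (Fin 6)) = {1, 2, 3} from by decide] at this
    linear_combination this
  have E14 : y {0, 1, 4} + y {1, 2, 4} + y {1, 3, 4} + y {1, 4, 5} = 0 := by
    have := h 1 4 (by decide)
    rw [show (univ.filter (fun n : Fin 6 => n ≠ 1 ∧ n ≠ 4)) = {0, 2, 3, 5} from by decide,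
      sum_insert (by decide), sum_insert (by decide), sum_insert (by decide), sum_singleton,
      show ({1, 4, 0} : Finset (Fin 6)) = {0, 1, 4} from by decide,
      show ({1, 4, 2} : Finset (Fin 6)) = {1, 2, 4} from by decide,
      show ({1, 4, 3} : Finset (Fin 6)) = {1, 3, 4} from by decide] at this
    linear_combination this
  have E15 : y {0, 1, 5} + y {1, 2, 5} + y {1, 3, 5} + y {1, 4, 5} = 0 := by
    have := h 1 5 (by decide)
    rw [show (univ.filter (fun n : Fin 6 => n ≠ 1 ∧ n ≠ 5)) = {0, 2, 3, 4} from by decide,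
      sum_insert (by decide), sum_insert (by decide), sum_insert (by decide), sum_singleton,
      show ({1, 5, 0} : Finset (Fin 6)) = {0, 1, 5} from by decide,
      show ({1, 5, 2} : Finset (Fin 6)) = {1, 2, 5} from by decide,
      show ({1, 5, 3} : Finset (Fin 6)) = {1, 3, 5} from by decide,
      show ({1, 5, 4} : Finset (Fin 6)) = {1, 4, 5} from by decide] at this
    linear_combination this
  have E23 : y {0, 2, 3} + y {1, 2, 3} + y {2, 3, 4} + y {2, 3, 5} = 0 := by
    have := h 2 3 (by decide)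
    rw [show (univ.filter (fun n : Fin 6 => n ≠ 2 ∧ n ≠ 3)) = {0, 1, 4, 5} from by decide,
      sum_insert (by decide), sum_insert (by decide), sum_insert (by decide), sum_singleton,
      show ({2, 3, 0} : Finset (Fin 6)) = {0, 2, 3} from by decide,
      show ({2, 3, 1} : Finset (Fin 6)) = {1, 2, 3} from by decide] at this
    linear_combination this
  have E24 : y {0, 2, 4} + y {1, 2, 4} + y {2, 3, 4} + y {2, 4, 5} = 0 := by
    have := h 2 4 (by decide)
    rw [show (univ.filter (fun n : Fin 6 => n ≠ 2 ∧ n ≠ 4)) = {0, 1, 3, 5} from by decide,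
      sum_insert (by decide), sum_insert (by decide), sum_insert (by decide), sum_singleton,
      show ({2, 4, 0} : Finset (Fin 6)) = {0, 2, 4} from by decide,
      show ({2, 4, 1} : Finset (Fin 6)) = {1, 2, 4} from by decide,
      show ({2, 4, 3} : Finset (Fin 6)) = {2, 3, 4} from by decide] at this
    linear_combination this
  have E25 : y {0, 2, 5} + y {1, 2, 5} + y {2, 3, 5} + y {2, 4, 5} = 0 := by
    have := h 2 5 (by decide)
    rw [show (univ.filter (fun n : Fin 6 => n ≠ 2 ∧ n ≠ 5)) = {0, 1, 3, 4} from by decide,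
      sum_insert (by decide), sum_insert (by decide), sum_insert (by decide), sum_singleton,
      show ({2, 5, 0} : Finset (Fin 6)) = {0, 2, 5} from by decide,
      show ({2, 5, 1} : Finset (Fin 6)) = {1, 2, 5} from by decide,
      show ({2, 5, 3} : Finset (Fin 6)) = {2, 3, 5} from by decide,
      show ({2, 5, 4} : Finset (Fin 6)) = {2, 4, 5} from by decide] at this
    linear_combination this
  have E34 : y {0, 3, 4} + y {1, 3, 4} + y {2, 3, 4} + y {3, 4, 5} = 0 := by
    have := h 3 4 (by decide)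
    rw [show (univ.filter (fun n : Fin 6 => n ≠ 3 ∧ n ≠ 4)) = {0, 1, 2, 5} from by decide,
      sum_insert (by decide), sum_insert (by decide), sum_insert (by decide), sum_singleton,
      show ({3, 4, 0} : Finset (Fin 6)) = {0, 3, 4} from by decide,
      show ({3, 4, 1} : Finset (Fin 6)) = {1, 3, 4} from by decide,
      show ({3, 4, 2} : Finset (Fin 6)) = {2, 3, 4} from by decide] at this
    linear_combination this
  have E35 : y {0, 3, 5} + y {1, 3, 5} + y {2, 3, 5} + y {3, 4, 5} = 0 := by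
    have := h 3 5 (by decide)
    rw [show (univ.filter (fun n : Fin 6 => n ≠ 3 ∧ n ≠ 5)) = {0, 1, 2, 4} from by decide,
      sum_insert (by decide), sum_insert (by decide), sum_insert (by decide), sum_singleton,
      show ({3, 5, 0} : Finset (Fin 6)) = {0, 3, 5} from by decide,
      show ({3, 5, 1} : Finset (Fin 6)) = {1, 3, 5} from by decide,
      show ({3, 5, 2} : Finset (Fin 6)) = {2, 3, 5} from by decide,
      show ({3, 5, 4} : Finset (Fin 6)) = {3, 4, 5} from by decide] at this
    linear_combination this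
  have E45 : y {0, 4, 5} + y {1, 4, 5} + y {2, 4, 5} + y {3, 4, 5} = 0 := by
    have := h 4 5 (by decide)
    rw [show (univ.filter (fun n : Fin 6 => n ≠ 4 ∧ n ≠ 5)) = {0, 1, 2, 3} from by decide,
      sum_insert (by decide), sum_insert (by decide), sum_insert (by decide), sum_singleton,
      show ({4, 5, 0} : Finset (Fin 6)) = {0, 4, 5} from by decide,
      show ({4, 5, 1} : Finset (Fin 6)) = {1, 4, 5} from by decide,
      show ({4, 5, 2} : Finset (Fin 6)) = {2, 4, 5} from by decide,
      show ({4, 5, 3} : Finset (Fin 6)) = {3, 4, 5} from by decide] at this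
    linear_combination this
  have h2 : (2 : ZMod 2) = 0 := rfl
  have Q : y {0, 1, 2} * y {3, 4, 5} + y {0, 1, 3} * y {2, 4, 5} + y {0, 1, 4} * y {2, 3, 5} + y {0, 1, 5} * y {2, 3, 4} + y {0, 2, 3} * y {1, 4, 5} + y {0, 2, 4} * y {1, 3, 5} + y {0, 2, 5} * y {1, 3, 4} + y {0, 3, 4} * y {1, 2, 5} + y {0, 3, 5} * y {1, 2, 4} + y {0, 4, 5} * y {1, 2, 3} = 0 := by
    linear_combination E12 * y {3, 4, 5} + E13 * y {2, 4, 5} + E14 * y {2, 3, 5} + E15 * y {2, 3, 4} + E23 * y {1, 4, 5} + E24 * y {1, 3, 5} + E25 * y {1, 3, 4} + E34 * y {1, 2, 5} + E35 * y {1, 2, 4} + E45 * y {1, 2, 3} - h2 * (y {1, 2, 3} * y {1, 4, 5} + y {1, 2, 3} * y {2, 4, 5} + y {1, 2, 3} * y {3, 4, 5} + y {1, 2, 4} * y {1, 3, 5} + y {1, 2, 4} * y {2, 3, 5} + y {1, 2, 4} * y {3, 4, 5} + y {1, 2, 5} * y {1, 3, 4} + y {1, 2, 5} * y {2, 3, 4} + y {1, 2, 5} * y {3, 4, 5} + y {1, 3, 4} * y {2, 3, 5} + y {1, 3, 4} * y {2, 4, 5} + y {1, 3, 5} * y {2, 3, 4} + y {1, 3, 5} * y {2, 4, 5} + y {1, 4, 5} * y {2, 3, 4} + y {1, 4, 5}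 * y {2, 3, 5})
  rw [show (univ.filter (fun A : Finset (Fin 6) => A.card = 3 ∧ 0 ∈ A)) = {{0, 1, 2}, {0, 1, 3}, {0, 1, 4}, {0, 1, 5}, {0, 2, 3}, {0, 2, 4}, {0, 2, 5}, {0, 3, 4}, {0, 3, 5}, {0, 4, 5}} from by decide]
  rw [sum_insert (by decide), sum_insert (by decide), sum_insert (by decide), sum_insert (by decide), sum_insert (by decide), sum_insert (by decide), sum_insert (by decide), sum_insert (by decide), sum_insert (by decide), sum_singleton]
  rw [show ({0, 1, 2} : Finset (Fin 6))ᶜ = {3, 4, 5} from by decide]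
  rw [show ({0, 1, 3} : Finset (Fin 6))ᶜ = {2, 4, 5} from by decide]
  rw [show ({0, 1, 4} : Finset (Fin 6))ᶜ = {2, 3, 5} from by decide]
  rw [show ({0, 1, 5} : Finset (Fin 6))ᶜ = {2, 3, 4} from by decide]
  rw [show ({0, 2, 3} : Finset (Fin 6))ᶜ = {1, 4, 5} from by decide]
  rw [show ({0, 2, 4} : Finset (Fin 6))ᶜ = {1, 3, 5} from by decide]
  rw [show ({0, 2, 5} : Finset (Fin 6))ᶜ = {1, 3, 4} from by decide]
  rw [show ({0, 3, 4} : Finset (Fin 6))ᶜ = {1, 2, 5} from by decide]
  rw [show ({0, 3, 5} : Finset (Fin 6))ᶜ = {1, 2, 4} from by decide]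
  rw [show ({0, 4, 5} : Finset (Fin 6))ᶜ = {1, 2, 3} from by decide]
  linear_combination Q

end Pool.Agent.Lib_helper53.Thick
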