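import Mathlib
import Pool.Agent.Lib_helper53.Thick.Types

set_option autoImplicit false

/-!
# Rainbow triangles and their counts in discs
-/

namespace Pool.Agent.Lib_helper53.Thick

open Finset

/-- the set of colours of the vertices of a triangle -/
noncomputable def ty (c : ℂ → Fin 6) (τ : Tri) : Finset (Fin 6) :=
  {c (ee (vtx τ 0)), c (ee (vtx τ 1)), c (ee (vtx τ 2))}

/-- number (mod 2) of triangles of a given type in a set of triangles -/
noncomputable def RR (c : ℂ → Fin 6) (D : Finset Tri) (A : Finset (Fin 6)) : ZMod 2 :=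
  ∑ τ ∈ D, if ty c τ = A then 1 else 0

lemma mem_ty {c : ℂ → Fin 6} {τ : Tri} {l : Fin 6} :
    l ∈ ty c τ ↔ ∃ i, c (ee (vtx τ i)) = l := by
  unfold ty
  simp only [mem_insert, mem_singleton]
  constructor
  · rintro (h | h | h)
    · exact ⟨0, h.symm⟩
    · exact ⟨1, h.symm⟩
    · exact ⟨2, h.symm⟩
  · rintro ⟨i, hi⟩
    fin_cases i
    · exact Or.inl hi.symm
    · exact Or.inr (Or.inl hi.symm)
    · exact Or.inr (Or.inr hi.symm)

lemma card3_iff : ∀ a b d : Fin 6, ({a, b, d} : Finset (Fin 6)).card = 3 ↔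
    a ≠ b ∧ a ≠ d ∧ b ≠ d := by decide

set_option maxRecDepth 1000000 in
lemma bet_colors : ∀ l m : Fin 6, l ≠ m → ∀ a b d : Fin 6,
    ((if (b = l ∧ d = m) ∨ (b = m ∧ d = l) then (1 : ZMod 2) else 0) +
      (if (d = l ∧ a = m) ∨ (d = m ∧ a = l) then 1 else 0) +
      (if (a = l ∧ b = m) ∨ (a = m ∧ b = l) then 1 else 0)) =
    if l ∈ ({a, b, d} : Finset (Fin 6)) ∧ m ∈ ({a, b, d} : Finset (Fin 6)) ∧
      ({a, b, d} : Finset (Fin 6)).card = 3 then 1 else 0 := by
  decide +kernel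

set_option maxRecDepth 1000000 in
lemma type_sum : ∀ l m : Fin 6, l ≠ m → ∀ A : Finset (Fin 6),
    (if l ∈ A ∧ m ∈ A ∧ A.card = 3 then (1 : ZMod 2) else 0) =
      ∑ n ∈ univ.filter (fun n : Fin 6 => n ≠ l ∧ n ≠ m),
        if A = {l, m, n} then 1 else 0 := by
  decide +kernel

lemma bd_bet {c : ℂ → Fin 6} {l m : Fin 6} (h : l ≠ m) (τ : Tri) :
    bd (fun u v => bet c l m (ee u) (ee v)) τ =
      if l ∈ ty c τ ∧ m ∈ ty c τ ∧ (ty c τ).card = 3 then 1 else 0 :=
  bet_colors l m h _ _ _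

lemma sum_bd_bet {c : ℂ → Fin 6} {l m : Fin 6} (h : l ≠ m) (D : Finset Tri) :
    ∑ τ ∈ D, bd (fun u v => bet c l m (ee u) (ee v)) τ =
      ∑ n ∈ univ.filter (fun n : Fin 6 => n ≠ l ∧ n ≠ m), RR c D {l, m, n} := by
  unfold RR
  rw [sum_comm]
  apply sum_congr rfl
  intro τ _
  rw [bd_bet h, type_sum l m h]

lemma RR_congr {c : ℂ → Fin 6} {D D' : Finset Tri} {A : Finset (Fin 6)}
    (h : ∀ τ, ty c τ = A → (τ ∈ D ↔ τ ∈ D')) : RR c D A = RR c D' A := by
  unfold RR
  rw [← sum_filter, ← sum_filter]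
  apply sum_congr _ (fun _ _ => rfl)
  ext τ
  simp only [mem_filter]
  constructor
  · rintro ⟨h1, h2⟩; exact ⟨(h τ h2).mp h1, h2⟩
  · rintro ⟨h1, h2⟩; exact ⟨(h τ h2).mpr h1, h2⟩

lemma RR_ne {c : ℂ → Fin 6} {D : Finset Tri} {A : Finset (Fin 6)} (h : RR c D A ≠ 0) :
    ∃ τ ∈ D, ty c τ = A := by
  obtain ⟨τ, h1, h2⟩ := exists_ne_zero_of_sum_ne_zero h
  refine ⟨τ, h1, ?_⟩
  by_contra h3
  rw [if_neg h3] at h2
  exact h2 rfl

section

variable {c : ℂ → Fin 6} {r s : ℝ}

/-- complementary triangles are far apart -/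
lemma Good.compl_far (G : Good c r s) {τ τ' : Tri} (h : ty c τ' = (ty c τ)ᶜ) {p q : ℂ}
    (hp : ‖p - ee τ.1‖ ≤ 15) (hq : ‖q - ee τ'.1‖ ≤ 15) : 2 * r + 20 < ‖p - q‖ := by
  apply G.cover_far p q (fun i => ee (vtx τ i)) (fun i => ee (vtx τ' i))
  · intro i
    have h1 := vtx_base τ i
    have h2 := norm_sub_le_norm_sub_add_norm_sub (ee (vtx τ i)) (ee τ.1) p
    rw [norm_sub_rev (ee τ.1) p] at h2
    linarith
  · intro i
    have h1 := vtx_base τ' i
    have h2 := norm_sub_le_norm_sub_add_norm_sub (ee (vtx τ' i)) (ee τ'.1) q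
    rw [norm_sub_rev (ee τ'.1) q] at h2
    linarith
  · intro k
    by_cases hk : k ∈ ty c τ
    · exact Or.inl (mem_ty.mp hk)
    · right
      apply mem_ty.mp
      rw [h, mem_compl]
      exact hk

/-- even count of triangles around a point whose colour is involved -/
lemma Good.even_count (G : Good c r s) {y x : ℂ} {l m : Fin 6} (hlm : l ≠ m)
    (hx : ‖x - y‖ ≤ 20) (hl : c x = l ∨ c x = m) :
    ∑ n ∈ univ.filter (fun n : Fin 6 => n ≠ l ∧ n ≠ m), RR c (disc y r) {l, m, n} = 0 := by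
  have hs := G.hs
  have hr := G.hr
  rw [← sum_bd_bet hlm]
  apply sum_bd_eq_zero _ _ (fun u v => bet_symm _ _ _ _ _)
  intro τ hτ d hd
  rw [mem_disc] at hτ hd
  push Not at hd
  have hb := nb_base d τ
  have hbase : |‖ee τ.1 - y‖ - r| ≤ 1 := by
    have := norm_sub_le_norm_sub_add_norm_sub (ee (nb d τ).1) (ee τ.1) y
    rw [abs_le]
    constructor <;> linarith
  have hv : ∀ i, c (ee (vtx τ i)) ≠ c x := by
    intro i
    have h1 := vtx_base τ i
    have h2 := norm_sub_le_norm_sub_add_norm_sub (ee (vtx τ i)) (ee τ.1) y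
    have h3 := norm_sub_le_norm_sub_add_norm_sub (ee τ.1) (ee (vtx τ i)) y
    rw [norm_sub_rev (ee τ.1) (ee (vtx τ i))] at h3
    have h4 := norm_sub_le_norm_sub_add_norm_sub (ee (vtx τ i)) y x
    have h5 := norm_sub_le_norm_sub_add_norm_sub (ee (vtx τ i)) x y
    rw [norm_sub_rev y x] at h4
    rw [abs_le] at hbase
    exact G.h _ _ (by linarith [hbase.1, hbase.2]) (by linarith [hbase.1, hbase.2])
  unfold bet
  rw [if_neg]
  have h1 := hv (d + 1)
  have h2 := hv (d + 2)
  rcases hl with hl | hl <;> rw [hl] at h1 h2 <;> tauto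

/-- odd count of triangles around a vertex of a rainbow triangle, for colours not in it -/
lemma Good.odd_count (G : Good c r s) {P : Tri} (hP : (ty c P).card = 3) (i : Fin 3)
    {l m : Fin 6} (hlm : l ≠ m) (hl : l ∉ ty c P) (hm : m ∉ ty c P) :
    ∑ n ∈ univ.filter (fun n : Fin 6 => n ≠ l ∧ n ≠ m),
      RR c (disc (ee (vtx P i)) r) {l, m, n} = 1 := by
  rw [← sum_bd_bet hlm]
  have h3 := (card3_iff _ _ _).mp hP
  apply Pool.Agent.Lib_helper53.Thick.odd_count (s := s) (X := fun j => ee (vtx P j))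
  refine ⟨G, fun j => (vtx_dist P j i).trans one_le_two, ?_, ?_, ?_, hlm⟩
  · intro a b hab
    fin_cases a <;> fin_cases b <;> simp_all
  · intro j hj
    exact hl (mem_ty.mpr ⟨j, hj⟩)
  · intro j hj
    exact hm (mem_ty.mpr ⟨j, hj⟩)

set_option maxRecDepth 1000000 in
lemma compl_sum : ∀ T : Finset (Fin 6), T.card = 3 → ∀ l m : Fin 6, l ≠ m →
    ∑ n ∈ univ.filter (fun n : Fin 6 => n ≠ l ∧ n ≠ m),
      (if ({l, m, n} : Finset (Fin 6)) = Tᶜ then (1 : ZMod 2) else 0) =
    if l ∉ T ∧ m ∉ T then 1 else 0 := by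
  decide +kernel

set_option maxRecDepth 1000000 in
lemma compl_ne : ∀ T : Finset (Fin 6), T.card = 3 → T ≠ Tᶜ := by
  decide +kernel

/-- the number of triangles of the type of `P` near `P` is even -/
theorem Good.even_near (G : Good c r s) {P : Tri} (hP : (ty c P).card = 3) (i : Fin 3) :
    RR c (disc (ee (vtx P i)) r) (ty c P) = 0 := by
  set T := ty c P with hT
  set D := disc (ee (vtx P i)) r with hD
  set y : Finset (Fin 6) → ZMod 2 := fun A => RR c D A + if A = Tᶜ then 1 else 0 with hy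
  have hq := quad y (by
    intro l m hlm
    simp only [hy]
    rw [sum_add_distrib, compl_sum T hP l m hlm]
    by_cases h1 : l ∉ T ∧ m ∉ T
    · rw [if_pos h1, G.odd_count hP i hlm h1.1 h1.2]
      rfl
    · rw [if_neg h1, add_zero]
      have h2 : l ∈ T ∨ m ∈ T := by tauto
      rcases h2 with h2 | h2
      · obtain ⟨j, hj⟩ := mem_ty.mp h2
        exact G.even_count hlm (x := ee (vtx P j)) ((vtx_dist P j i).trans (by norm_num))
          (Or.inl hj)
      · obtain ⟨j, hj⟩ := mem_ty.mp h2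
        exact G.even_count hlm (x := ee (vtx P j)) ((vtx_dist P j i).trans (by norm_num))
          (Or.inr hj))
  have hother : ∀ A : Finset (Fin 6), A ≠ T → A ≠ Tᶜ → y A * y Aᶜ = 0 := by
    intro A h1 h2
    have h3 : Aᶜ ≠ Tᶜ := fun h => h1 (compl_injective h)
    simp only [hy]
    rw [if_neg h2, if_neg h3, add_zero, add_zero]
    by_contra hne
    have hA : RR c D A ≠ 0 := left_ne_zero_of_mul hne
    have hA' : RR c D Aᶜ ≠ 0 := right_ne_zero_of_mul hne
    obtain ⟨τ, h4, h5⟩ := RR_ne hA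
    obtain ⟨τ', h6, h7⟩ := RR_ne hA'
    rw [mem_disc] at h4 h6
    have h8 := G.compl_far (τ := τ) (τ' := τ') (p := ee τ.1) (q := ee τ'.1) (by rw [h5, h7])
      (by simp) (by simp)
    have h9 := norm_sub_le_norm_sub_add_norm_sub (ee τ.1) (ee (vtx P i)) (ee τ'.1)
    rw [norm_sub_rev (ee (vtx P i)) (ee τ'.1)] at h9
    linarith
  have hTc : RR c D Tᶜ = 0 := by
    by_contra hne
    obtain ⟨τ, h4, h5⟩ := RR_ne hne
    rw [mem_disc] at h4
    have h8 := G.compl_far (τ := P) (τ' := τ) (p := ee (vtx P i)) (q := ee τ.1) h5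
      ((vtx_base P i).trans (by norm_num)) (by simp)
    rw [norm_sub_rev] at h8
    have := G.hr
    have := G.hs
    linarith
  have hprod : y T * y Tᶜ = 0 := by
    have hmem : ∀ B : Finset (Fin 6), B = T ∨ B = Tᶜ → 0 ∈ B → B.card = 3 → y B * y Bᶜ = 0 := by
      intro B hB h0 hc
      rw [← hq]
      symm
      apply sum_eq_single B
      · intro A hA hAB
        rw [mem_filter] at hA
        apply hother
        · rintro rfl
          rcases hB with hB | hB
          · exact hAB hB.symm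
          · rw [hB] at h0
            exact (mem_compl.mp h0) hA.2.2
        · rintro rfl
          rcases hB with hB | hB
          · rw [hB] at h0
            exact (mem_compl.mp hA.2.2) h0
          · exact hAB hB.symm
      · intro h
        exact absurd (mem_filter.mpr ⟨mem_univ _, hc, h0⟩) h
    by_cases h0 : (0 : Fin 6) ∈ T
    · exact hmem T (Or.inl rfl) h0 hP
    · have := hmem Tᶜ (Or.inr rfl) (mem_compl.mpr h0) (by rw [card_compl, hP]; rfl)
      rw [compl_compl, mul_comm] at this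
      exact this
  have e1 : y Tᶜ = 1 := by
    simp only [hy]
    rw [hTc, if_pos trivial, zero_add]
  have e2 : y T = RR c D T := by
    simp only [hy]
    rw [if_neg (compl_ne T hP), add_zero]
  rw [e1, e2, mul_one] at hprod
  exact hprod

end

end Pool.Agent.Lib_helper53.Thick
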