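import Mathlib
import Pool.Agent.Lib_helper53.Thick.Rainbow

set_option autoImplicit false

/-!
# Strips of triangles along the interface of two colours
-/

namespace Pool.Agent.Lib_helper53.Thick

open Finset

/-- crossing an edge coloured `l, m` -/
def Stp (c : ℂ → Fin 6) (l m : Fin 6) (τ τ' : Tri) : Prop :=
  ∃ d, τ' = nb d τ ∧ bet c l m (ee (vtx τ (d + 1))) (ee (vtx τ (d + 2))) ≠ 0

/-- connected by a strip -/
def Conn (c : ℂ → Fin 6) (l m : Fin 6) : Tri → Tri → Prop := Relation.ReflTransGen (Stp c l m)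

/-- `x` is a vertex of `τ` of colour `l` -/
def Vl (c : ℂ → Fin 6) (l : Fin 6) (τ : Tri) (x : Pt) : Prop :=
  (∃ i, vtx τ i = x) ∧ c (ee x) = l

lemma bet_ne {c : ℂ → Fin 6} {l m : Fin 6} {u v : ℂ} (h : bet c l m u v ≠ 0) :
    (c u = l ∧ c v = m) ∨ (c u = m ∧ c v = l) := by
  unfold bet at h
  by_contra hc
  rw [if_neg hc] at h
  exact h rfl

lemma bet_comm' (c : ℂ → Fin 6) (l m : Fin 6) (u v : ℂ) : bet c l m u v = bet c m l u v := by
  unfold bet
  congr 1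
  apply propext
  tauto

lemma Stp.symm {c : ℂ → Fin 6} {l m : Fin 6} {τ τ' : Tri} (h : Stp c l m τ τ') :
    Stp c l m τ' τ := by
  obtain ⟨d, rfl, h2⟩ := h
  refine ⟨d, (nb_nb d τ).symm, ?_⟩
  rw [vtx_nb1, vtx_nb2, bet_symm]
  exact h2

lemma Stp.comm {c : ℂ → Fin 6} {l m : Fin 6} {τ τ' : Tri} (h : Stp c l m τ τ') :
    Stp c m l τ τ' := by
  obtain ⟨d, h1, h2⟩ := h
  exact ⟨d, h1, by rw [bet_comm']; exact h2⟩

lemma Conn.symm {c : ℂ → Fin 6} {l m : Fin 6} {τ τ' : Tri} (h : Conn c l m τ τ') :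
    Conn c l m τ' τ := by
  induction h with
  | refl => exact Relation.ReflTransGen.refl
  | tail _ h2 ih => exact Relation.ReflTransGen.head h2.symm ih

lemma Conn.comm {c : ℂ → Fin 6} {l m : Fin 6} {τ τ' : Tri} (h : Conn c l m τ τ') :
    Conn c m l τ τ' := by
  induction h with
  | refl => exact Relation.ReflTransGen.refl
  | tail _ h2 ih => exact Relation.ReflTransGen.tail ih h2.comm

lemma Stp.shared {c : ℂ → Fin 6} {l m : Fin 6} {τ τ' : Tri} (h : Stp c l m τ τ') :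
    ∃ u, Vl c l τ u ∧ Vl c l τ' u := by
  obtain ⟨d, rfl, h2⟩ := h
  rcases bet_ne h2 with ⟨h3, _⟩ | ⟨_, h3⟩
  · exact ⟨vtx τ (d + 1), ⟨⟨_, rfl⟩, h3⟩, ⟨⟨d + 2, vtx_nb2 d τ⟩, h3⟩⟩
  · exact ⟨vtx τ (d + 2), ⟨⟨_, rfl⟩, h3⟩, ⟨⟨d + 1, vtx_nb1 d τ⟩, h3⟩⟩

lemma Vl.dist {c : ℂ → Fin 6} {l m : Fin 6} {τ : Tri} {x y : Pt} (hx : Vl c l τ x)
    (hy : Vl c m τ y) : ‖ee x - ee y‖ ≤ 1 := by
  obtain ⟨⟨i, rfl⟩, _⟩ := hx
  obtain ⟨⟨j, rfl⟩, _⟩ := hy
  exact vtx_dist τ i j

lemma Vl.base {c : ℂ → Fin 6} {l : Fin 6} {τ : Tri} {x : Pt} (hx : Vl c l τ x) :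
    ‖ee x - ee τ.1‖ ≤ 2 := by
  obtain ⟨⟨i, rfl⟩, _⟩ := hx
  exact vtx_base τ i

lemma exists_Vl {c : ℂ → Fin 6} {l : Fin 6} {τ : Tri} (h : l ∈ ty c τ) : ∃ x, Vl c l τ x := by
  obtain ⟨i, hi⟩ := mem_ty.mp h
  exact ⟨_, ⟨i, rfl⟩, hi⟩

lemma Vl.mem {c : ℂ → Fin 6} {l : Fin 6} {τ : Tri} {x : Pt} (hx : Vl c l τ x) : l ∈ ty c τ := by
  obtain ⟨⟨i, rfl⟩, h⟩ := hx
  exact mem_ty.mpr ⟨i, h⟩

lemma Conn.mem {c : ℂ → Fin 6} {l m : Fin 6} {τ τ' : Tri} (h : Conn c l m τ τ')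
    (hl : l ∈ ty c τ) : l ∈ ty c τ' := by
  rcases Relation.ReflTransGen.cases_tail h with h | ⟨τ₁, _, h⟩
  · rw [h]; exact hl
  · obtain ⟨u, _, h2⟩ := h.shared
    exact h2.mem

section

variable {c : ℂ → Fin 6} {r s : ℝ}

lemma Good.near_move (G : Good c r s) {w x x' : ℂ} (h1 : ‖x - w‖ < r - s) (h2 : ‖x' - x‖ ≤ 10)
    (h3 : c x' = c w) : ‖x' - w‖ < r - s := by
  have hs := G.hs
  apply G.near h3
  have := norm_sub_le_norm_sub_add_norm_sub x' x w
  linarith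

lemma Good.conn_near (G : Good c r s) {l m : Fin 6} {τ τ' : Tri} (h : Conn c l m τ τ') {w : ℂ}
    (hw : c w = l) {x x' : Pt} (hx : Vl c l τ x) (hx' : Vl c l τ' x') (hn : ‖ee x - w‖ < r - s) :
    ‖ee x' - w‖ < r - s := by
  induction h generalizing x' with
  | refl =>
    exact G.near_move hn ((hx'.dist hx).trans (by norm_num)) (hx'.2.trans hw.symm)
  | tail _ h2 ih =>
    obtain ⟨u, hu1, hu2⟩ := h2.shared
    exact G.near_move (ih hu1) ((hx'.dist hu2).trans (by norm_num)) (hx'.2.trans hw.symm)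

lemma RR_move {A : Finset (Fin 6)} {x x' : ℂ} (h : ‖x - x'‖ ≤ 2)
    (hno : ∀ Z : Tri, ty c Z = A → ¬ |‖ee Z.1 - x‖ - r| ≤ 2) :
    RR c (disc x r) A = RR c (disc x' r) A := by
  apply RR_congr
  intro Z hZ
  have h1 := hno Z hZ
  rw [mem_disc, mem_disc]
  have h2 := norm_sub_le_norm_sub_add_norm_sub (ee Z.1) x x'
  have h3 := norm_sub_le_norm_sub_add_norm_sub (ee Z.1) x' x
  rw [norm_sub_rev x' x] at h3
  constructor
  · intro h4
    by_contra h5
    push Not at h5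
    apply h1
    rw [abs_le]
    constructor <;> linarith
  · intro h4
    by_contra h5
    push Not at h5
    apply h1
    rw [abs_le]
    constructor <;> linarith

/-- if no triangle of type `A` is at distance about `r` from the strip, then the number of
triangles of type `A` in the discs around the strip is constant -/
lemma sweep {l m : Fin 6} {A : Finset (Fin 6)} {τ τ' : Tri} (h : Conn c l m τ τ')
    (hno : ∀ τ₁ x, Conn c l m τ τ₁ → Vl c l τ₁ x → ∀ Z : Tri, ty c Z = A →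
      ¬ |‖ee Z.1 - ee x‖ - r| ≤ 2) {x x' : Pt} (hx : Vl c l τ x) (hx' : Vl c l τ' x') :
    RR c (disc (ee x) r) A = RR c (disc (ee x') r) A := by
  induction h generalizing x' with
  | refl =>
    exact RR_move ((hx.dist hx').trans one_le_two) (hno τ x Relation.ReflTransGen.refl hx)
  | tail h1 h2 ih =>
    obtain ⟨u, hu1, hu2⟩ := h2.shared
    rw [ih hu1]
    exact RR_move ((hu2.dist hx').trans one_le_two) (hno _ u h1 hu1)

lemma compl3 {a b d e f g : Fin 6} (h1 : a ≠ b) (h2 : a ≠ d) (h3 : a ≠ e) (h4 : a ≠ f)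
    (h5 : a ≠ g) (h6 : b ≠ d) (h7 : b ≠ e) (h8 : b ≠ f) (h9 : b ≠ g) (h10 : d ≠ e) (h11 : d ≠ f)
    (h12 : d ≠ g) (h13 : e ≠ f) (h14 : e ≠ g) (h15 : f ≠ g) :
    ({e, f, g} : Finset (Fin 6)) = ({a, b, d} : Finset (Fin 6))ᶜ := by
  apply Finset.eq_of_subset_of_card_le
  · intro n hn
    simp only [mem_insert, mem_singleton, mem_compl] at hn ⊢
    push Not
    rcases hn with rfl | rfl | rfl
    · exact ⟨h3.symm, h7.symm, h10.symm⟩
    · exact ⟨h4.symm, h8.symm, h11.symm⟩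
    · exact ⟨h5.symm, h9.symm, h12.symm⟩
  · rw [card_compl, (card3_iff a b d).mpr ⟨h1, h2, h6⟩, (card3_iff e f g).mpr ⟨h13, h14, h15⟩]
    rfl

lemma third_exists (T : Finset (Fin 6)) (hT : T.card = 3) (l m : Fin 6) (hlm : l ≠ m)
    (hl : l ∈ T) (hm : m ∈ T) : ∃ k, k ≠ l ∧ k ≠ m ∧ T = {l, m, k} := by
  have hm' : m ∈ T.erase l := mem_erase.mpr ⟨hlm.symm, hm⟩
  have h1 : ((T.erase l).erase m).card = 1 := by
    rw [card_erase_of_mem hm', card_erase_of_mem hl, hT]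
  obtain ⟨k, hk⟩ := card_eq_one.mp h1
  have hk' : k ∈ (T.erase l).erase m := by rw [hk]; exact mem_singleton_self k
  rw [mem_erase, mem_erase] at hk'
  refine ⟨k, hk'.2.1, hk'.1, ?_⟩
  rw [← hk, insert_erase hm', insert_erase hl]

lemma sixth_exists (x1 x2 x3 x4 x5 : Fin 6) :
    ∃ b : Fin 6, b ≠ x1 ∧ b ≠ x2 ∧ b ≠ x3 ∧ b ≠ x4 ∧ b ≠ x5 := by
  by_contra hcon
  push Not at hcon
  have h1 : (univ : Finset (Fin 6)) ⊆ {x1, x2, x3, x4, x5} := by
    intro b _
    simp only [mem_insert, mem_singleton]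
    by_contra hb
    push Not at hb
    exact hb.2.2.2.2 (hcon b hb.1 hb.2.1 hb.2.2.1 hb.2.2.2.1)
  have h2 := card_le_card h1
  have h3 : ({x1, x2, x3, x4, x5} : Finset (Fin 6)).card ≤ 5 := card_le_five
  simp at h2
  omega

/-- near a strip with ends of different types only these two types occur -/
theorem Good.strip_types (G : Good c r s) {l m : Fin 6} (hlm : l ≠ m) {P Q P' : Tri}
    (hPQ : Conn c l m P Q) (hP : (ty c P).card = 3) (hQ : (ty c Q).card = 3)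
    (hP' : (ty c P').card = 3) (hPl : l ∈ ty c P) (hPm : m ∈ ty c P) (hP'l : l ∈ ty c P')
    (hP'm : m ∈ ty c P') (hne : ty c P ≠ ty c Q) (hnear : ‖ee P.1 - ee P'.1‖ < r) :
    ty c P' = ty c P ∨ ty c P' = ty c Q := by
  have hs := G.hs
  have hr := G.hr
  by_contra hcon
  push Not at hcon
  obtain ⟨hcon1, hcon2⟩ := hcon
  have hQl := hPQ.mem hPl
  have hQm := hPQ.comm.mem hPm
  obtain ⟨k, hkl, hkm, hTP⟩ := third_exists _ hP l m hlm hPl hPm
  obtain ⟨k', hk'l, hk'm, hTQ⟩ := third_exists _ hQ l m hlm hQl hQm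
  obtain ⟨a, hal, ham, hTP'⟩ := third_exists _ hP' l m hlm hP'l hP'm
  have hkk' : k ≠ k' := by rintro rfl; exact hne (hTP.trans hTQ.symm)
  have hak : a ≠ k := by rintro rfl; exact hcon1 (hTP'.trans hTP.symm)
  have hak' : a ≠ k' := by rintro rfl; exact hcon2 (hTP'.trans hTQ.symm)
  obtain ⟨b, hbl, hbm, hbk, hbk', hba⟩ := sixth_exists l m k k' a
  obtain ⟨x, hx⟩ := exists_Vl hPl
  obtain ⟨x', hx'⟩ := exists_Vl hQl
  obtain ⟨x'', hx''⟩ := exists_Vl hP'l
  -- nearness of the l-vertices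
  have hn1 : ‖ee x - ee x''‖ < r - s := by
    apply G.near (hx.2.trans hx''.2.symm)
    have e1 := hx.base
    have e2 := hx''.base
    have e3 := norm_sub_le_norm_sub_add_norm_sub (ee x) (ee P.1) (ee x'')
    have e4 := norm_sub_le_norm_sub_add_norm_sub (ee P.1) (ee P'.1) (ee x'')
    rw [norm_sub_rev (ee P'.1) (ee x'')] at e4
    linarith
  have hn2 : ‖ee x' - ee x‖ < r - s := by
    apply G.conn_near hPQ hx.2 hx hx'
    rw [sub_self, norm_zero]
    linarith [G.near (z := ee x) (w := ee x) rfl (by rw [sub_self, norm_zero]; linarith),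
      norm_nonneg (ee x - ee x)]
  have hcov := card6 hlm hkl.symm hk'l.symm hal.symm hbl.symm hkm.symm hk'm.symm ham.symm
    hbm.symm hkk' hak.symm hbk.symm hak'.symm hbk'.symm hba.symm
  have hkQ : k ∉ ty c Q := by
    rw [hTQ]; simp only [mem_insert, mem_singleton]; push Not; exact ⟨hkl, hkm, hkk'⟩
  have hbQ : b ∉ ty c Q := by
    rw [hTQ]; simp only [mem_insert, mem_singleton]; push Not; exact ⟨hbl, hbm, hbk'⟩
  have hkP : k ∈ ty c P := by rw [hTP]; simp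
  obtain ⟨z, hz⟩ := exists_Vl hkP
  have sumQ : ∑ n ∈ univ.filter (fun n : Fin 6 => n ≠ k ∧ n ≠ b),
      RR c (disc (ee x') r) {k, b, n} = 1 := by
    obtain ⟨⟨i, hi⟩, _⟩ := hx'
    rw [← hi]
    exact G.odd_count hQ i hbk.symm hkQ hbQ
  have sumP : ∑ n ∈ univ.filter (fun n : Fin 6 => n ≠ k ∧ n ≠ b),
      RR c (disc (ee x) r) {k, b, n} = 0 :=
    G.even_count hbk.symm (x := ee z) ((hz.dist hx).trans (by norm_num)) (Or.inl hz.2)
  -- no hits for types containing l or m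
  have nohit : ∀ A : Finset (Fin 6), (l ∈ A ∨ m ∈ A) →
      RR c (disc (ee x) r) A = RR c (disc (ee x') r) A := by
    intro A hA
    apply sweep hPQ _ hx hx'
    intro τ₁ u hτ₁ hu Z hZ habs
    have key : ∀ v : Pt, ‖ee v - ee u‖ ≤ 1 → c (ee v) ∈ A → False := by
      intro v hv hvA
      rw [← hZ] at hvA
      obtain ⟨w, hw⟩ := exists_Vl hvA
      have e1 := hw.base
      have e2 := norm_sub_le_norm_sub_add_norm_sub (ee w) (ee Z.1) (ee v)
      have e3 := norm_sub_le_norm_sub_add_norm_sub (ee Z.1) (ee u) (ee v)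
      have e4 := norm_sub_le_norm_sub_add_norm_sub (ee Z.1) (ee w) (ee v)
      have e5 := norm_sub_le_norm_sub_add_norm_sub (ee Z.1) (ee v) (ee u)
      rw [norm_sub_rev (ee u) (ee v)] at e3
      rw [norm_sub_rev (ee Z.1) (ee w)] at e4
      rw [abs_le] at habs
      exact G.h (ee w) (ee v) (by linarith) (by linarith) hw.2
    rcases hA with hA | hA
    · exact key u (by simp) (by rw [hu.2]; exact hA)
    · obtain ⟨v, hv⟩ := exists_Vl (hτ₁.comm.mem hPm)
      exact key v (hv.dist hu) (by rw [hv.2]; exact hA)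
  -- type complementary to the one of Q
  have hcQ : ({k, b, a} : Finset (Fin 6)) = (ty c Q)ᶜ := by
    rw [hTQ]
    exact compl3 hlm hk'l.symm hkl.symm hbl.symm hal.symm hk'm.symm hkm.symm hbm.symm ham.symm
      hkk'.symm hbk'.symm hak'.symm hbk.symm hak.symm hba
  have zero1 : ∀ y : Pt, ‖ee y - ee x'‖ ≤ r → RR c (disc (ee y) r) {k, b, a} = 0 := by
    intro y hy
    by_contra hne
    obtain ⟨Z, hZ1, hZ2⟩ := RR_ne hne
    rw [mem_disc] at hZ1
    have e1 := G.compl_far (τ := Q) (τ' := Z) (p := ee x') (q := ee Z.1) (hZ2.trans hcQ)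
      (hx'.base.trans (by norm_num)) (by simp)
    have e2 := norm_sub_le_norm_sub_add_norm_sub (ee Z.1) (ee y) (ee x')
    rw [norm_sub_rev] at e1
    linarith
  have za1 := zero1 x (by rw [norm_sub_rev]; linarith)
  have za2 := zero1 x' (by simp; linarith)
  -- hence a hit for k, b, k'
  have hhit : RR c (disc (ee x) r) {k, b, k'} ≠ RR c (disc (ee x') r) {k, b, k'} := by
    intro heq
    have : ∑ n ∈ univ.filter (fun n : Fin 6 => n ≠ k ∧ n ≠ b),
        RR c (disc (ee x') r) {k, b, n} = ∑ n ∈ univ.filter (fun n : Fin 6 => n ≠ k ∧ n ≠ b),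
        RR c (disc (ee x) r) {k, b, n} := by
      apply sum_congr rfl
      intro n hn
      rw [mem_filter] at hn
      rcases cover6 hcov n with h | h | h | h | h | h
      · rw [h]; exact (nohit _ (Or.inl (by simp))).symm
      · rw [h]; exact (nohit _ (Or.inr (by simp))).symm
      · exact absurd h hn.2.1
      · rw [h]; exact heq.symm
      · rw [h, za1, za2]
      · exact absurd h hn.2.2
    rw [sumQ, sumP] at this
    exact one_ne_zero this
  apply hhit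
  apply sweep hPQ _ hx hx'
  intro τ₁ u hτ₁ hu Z hZ habs
  have hcP' : ({k, b, k'} : Finset (Fin 6)) = (ty c P')ᶜ := by
    rw [hTP']
    exact compl3 hlm hal.symm hkl.symm hbl.symm hk'l.symm ham.symm hkm.symm hbm.symm hk'm.symm
      hak hba.symm hak' hbk.symm hkk' hbk'
  have e1 := G.conn_near hτ₁ hx''.2 hx hu hn1
  have e2 := G.compl_far (τ := P') (τ' := Z) (p := ee x'') (q := ee Z.1) (hZ.trans hcP')
      (hx''.base.trans (by norm_num)) (by simp)
  have e3 := norm_sub_le_norm_sub_add_norm_sub (ee Z.1) (ee u) (ee x'')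
  rw [norm_sub_rev] at e2
  rw [abs_le] at habs
  linarith

end

end Pool.Agent.Lib_helper53.Thick
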