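import Mathlib
import Pool.Agent.Lib_helper53.Thick.Strip

set_option autoImplicit false

/-!
# The degree of a map of the lattice at bounded distance from the identity
-/

namespace Pool.Agent.Lib_helper53.Thick

open Finset

/-- crossing of the positive vertical half line -/
def alp (u v : Pt) : ZMod 2 :=
  (if (u.1 < 0 ∧ 0 ≤ u.2) ∧ ¬ v.1 < 0 then 1 else 0) +
    (if (v.1 < 0 ∧ 0 ≤ v.2) ∧ ¬ u.1 < 0 then 1 else 0)

/-- indicator of the left half plane -/
def lft (u : Pt) : ZMod 2 := if u.1 < 0 then 1 else 0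

lemma alp_symm (u v : Pt) : alp u v = alp v u := by
  unfold alp; rw [add_comm]

lemma alp_self (u : Pt) : alp u u = 0 := by
  unfold alp; exact zmod2_add_self _

lemma alp_neg {u v : Pt} (hu : u.1 < 0) (hv : v.1 < 0) : alp u v = 0 := by
  unfold alp; simp [hu, hv]

lemma alp_nonneg {u v : Pt} (hu : 0 ≤ u.1) (hv : 0 ≤ v.1) : alp u v = 0 := by
  unfold alp; simp [not_lt.mpr hu, not_lt.mpr hv]

lemma alp_low {u v : Pt} (hu : u.2 < 0) (hv : v.2 < 0) : alp u v = 0 := by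
  unfold alp; simp [not_le.mpr hu, not_le.mpr hv]

lemma alp_high {u v : Pt} (hu : 0 ≤ u.2) (hv : 0 ≤ v.2) : alp u v = lft u + lft v := by
  unfold alp lft
  by_cases h1 : u.1 < 0 <;> by_cases h2 : v.1 < 0 <;> simp [h1, h2, hu, hv]
  rfl

/-- telescoping in characteristic two -/
lemma tel (g : ℤ → ZMod 2) (a : ℤ) (n : ℕ) :
    ∑ x ∈ Ico a (a + n), (g x + g (x + 1)) = g a + g (a + n) := by
  induction n with
  | zero => simp [zmod2_add_self]
  | succ n ih =>
    have h1 : Ico a (a + ((n + 1 : ℕ) : ℤ)) = insert (a + n) (Ico a (a + n)) := by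
      ext x
      simp only [mem_Ico, mem_insert]
      push_cast
      omega
    rw [h1, sum_insert (by simp), ih]
    have h2 := zmod2_add_self (g (a + n))
    push_cast
    rw [← add_assoc a n 1]
    linear_combination h2

/-- the box -/
noncomputable def bx (M : ℕ) : Finset Tri := (Ico (-(M : ℤ)) M ×ˢ Ico (-(M : ℤ)) M) ×ˢ (univ : Finset Bool)

lemma mem_bx {M : ℕ} {τ : Tri} : τ ∈ bx M ↔ (-(M : ℤ) ≤ τ.1.1 ∧ τ.1.1 < M) ∧
    (-(M : ℤ) ≤ τ.1.2 ∧ τ.1.2 < M) := by
  simp [bx, mem_product]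

lemma telM (g : ℤ → ZMod 2) (M : ℕ) :
    ∑ x ∈ Ico (-(M : ℤ)) M, (g x + g (x + 1)) = g (-(M : ℤ)) + g M := by
  have h := tel g (-(M : ℤ)) (2 * M)
  have e : -(M : ℤ) + ((2 * M : ℕ) : ℤ) = M := by push_cast; ring
  rwa [e] at h

lemma box_sum (β : Pt → Pt → ZMod 2) (hs : ∀ u v, β u v = β v u) (M : ℕ) :
    ∑ τ ∈ bx M, bd β τ =
      ∑ b ∈ Ico (-(M : ℤ)) M, (β (-(M : ℤ), b) (-(M : ℤ), b + 1) + β ((M : ℤ), b) ((M : ℤ), b + 1))
      + ∑ a ∈ Ico (-(M : ℤ)) M, (β (a, -(M : ℤ)) (a + 1, -(M : ℤ)) + β (a, (M : ℤ)) (a + 1, (M : ℤ)))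
      := by
  unfold bx
  rw [sum_product]
  have h1 : ∀ p ∈ (Ico (-(M : ℤ)) M ×ˢ Ico (-(M : ℤ)) M), ∑ o ∈ (univ : Finset Bool), bd β (p, o) =
      (β (p.1, p.2) (p.1, p.2 + 1) + β (p.1 + 1, p.2) (p.1 + 1, p.2 + 1)) +
      (β (p.1, p.2) (p.1 + 1, p.2) + β (p.1, p.2 + 1) (p.1 + 1, p.2 + 1)) := by
    intro p _
    obtain ⟨a, b⟩ := p
    rw [Fintype.sum_bool]
    simp only [bd, vtx, if_true, Matrix.cons_val_zero, Matrix.cons_val_one, Matrix.cons_val,
      Bool.true_eq_false, if_false]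
    rw [hs (a, b + 1) (a, b), hs (a + 1, b + 1) (a, b + 1), hs (a, b + 1) (a + 1, b)]
    have e1 := zmod2_add_self (β (a + 1, b) (a, b + 1))
    linear_combination e1
  rw [sum_congr rfl h1, sum_add_distrib]
  congr 1
  · rw [sum_product, sum_comm]
    apply sum_congr rfl
    intro b _
    exact telM (fun a => β (a, b) (a, b + 1)) M
  · rw [sum_product]
    apply sum_congr rfl
    intro a _
    exact telM (fun b => β (a, b) (a + 1, b)) M

theorem degree_one (aa : Pt → Pt) (K M : ℕ)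
    (hK : ∀ x, |(aa x).1 - x.1| ≤ K ∧ |(aa x).2 - x.2| ≤ K) (hM : K < M) :
    ∑ τ ∈ bx M, bd (fun u v => alp (aa u) (aa v)) τ = 1 := by
  rw [box_sum _ (fun u v => alp_symm _ _)]
  have hM' : (K : ℤ) < M := by exact_mod_cast hM
  have h1 : ∀ b : ℤ, (aa (-(M : ℤ), b)).1 < 0 := by
    intro b
    have := (hK (-(M : ℤ), b)).1
    rw [abs_le] at this
    simp only at this
    omega
  have h2 : ∀ b : ℤ, 0 ≤ (aa ((M : ℤ), b)).1 := by
    intro b
    have := (hK ((M : ℤ), b)).1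
    rw [abs_le] at this
    simp only at this
    omega
  have h3 : ∀ a : ℤ, (aa (a, -(M : ℤ))).2 < 0 := by
    intro b
    have := (hK (b, -(M : ℤ))).2
    rw [abs_le] at this
    simp only at this
    omega
  have h4 : ∀ a : ℤ, 0 ≤ (aa (a, (M : ℤ))).2 := by
    intro b
    have := (hK (b, (M : ℤ))).2
    rw [abs_le] at this
    simp only at this
    omega
  have e1 : ∑ b ∈ Ico (-(M : ℤ)) M, (alp (aa (-(M : ℤ), b)) (aa (-(M : ℤ), b + 1)) +
      alp (aa ((M : ℤ), b)) (aa ((M : ℤ), b + 1))) = 0 := by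
    apply sum_eq_zero
    intro b _
    rw [alp_neg (h1 _) (h1 _), alp_nonneg (h2 _) (h2 _), add_zero]
  have e2 : ∑ a ∈ Ico (-(M : ℤ)) M, (alp (aa (a, -(M : ℤ))) (aa (a + 1, -(M : ℤ))) +
      alp (aa (a, (M : ℤ))) (aa (a + 1, (M : ℤ)))) = 1 := by
    rw [sum_congr rfl (fun a _ => by
      rw [alp_low (h3 a) (h3 (a + 1)), alp_high (h4 a) (h4 (a + 1)), zero_add] :
      ∀ a ∈ Ico (-(M : ℤ)) M, (alp (aa (a, -(M : ℤ))) (aa (a + 1, -(M : ℤ))) +
      alp (aa (a, (M : ℤ))) (aa (a + 1, (M : ℤ)))) = lft (aa (a, (M : ℤ))) +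
      lft (aa (a + 1, (M : ℤ))))]
    rw [telM (fun a => lft (aa (a, (M : ℤ))))]
    unfold lft
    rw [if_pos (h1 _), if_neg (not_lt.mpr (h2 _)), add_zero]
  rw [e1, e2, zero_add]

/-- splitting a double sum according to an injective code -/
lemma sym_split {ι : Type*} (R : Finset ι) (e : ι → ℕ) (he : Function.Injective e)
    (F : ι → ι → ZMod 2) :
    ∑ P ∈ R, ∑ Q ∈ R, F P Q = ∑ P ∈ R, F P P +
      ∑ P ∈ R, ∑ Q ∈ R, if e P < e Q then F P Q + F Q P else 0 := by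
  classical
  have h1 : ∀ P ∈ R, ∀ Q ∈ R, F P Q = (if P = Q then F P Q else 0) +
      ((if e P < e Q then F P Q else 0) + (if e Q < e P then F P Q else 0)) := by
    intro P _ Q _
    rcases lt_trichotomy (e P) (e Q) with h | h | h
    · have hne : P ≠ Q := fun hPQ => by rw [hPQ] at h; exact lt_irrefl _ h
      simp [h, hne, not_lt.mpr h.le]
    · have hPQ := he h
      simp [hPQ]
    · have hne : P ≠ Q := fun hPQ => by rw [hPQ] at h; exact lt_irrefl _ h
      simp [h, hne, not_lt.mpr h.le]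
  have h2 : ∑ P ∈ R, ∑ Q ∈ R, F P Q = ∑ P ∈ R, ∑ Q ∈ R, ((if P = Q then F P Q else 0) +
      ((if e P < e Q then F P Q else 0) + (if e Q < e P then F P Q else 0))) :=
    sum_congr rfl (fun P hP => sum_congr rfl (fun Q hQ => h1 P hP Q hQ))
  rw [h2]
  simp only [sum_add_distrib]
  congr 1
  · apply sum_congr rfl
    intro P hP
    rw [sum_ite_eq]
    simp [hP]
  · have h3 : ∑ P ∈ R, ∑ Q ∈ R, (if e Q < e P then F P Q else 0) =
        ∑ P ∈ R, ∑ Q ∈ R, (if e P < e Q then F Q P else 0) := sum_comm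
    rw [h3, ← sum_add_distrib]
    apply sum_congr rfl
    intro P _
    rw [← sum_add_distrib]
    apply sum_congr rfl
    intro Q _
    split_ifs <;> simp

lemma antisym_zero {ι : Type*} (R : Finset ι) (e : ι → ℕ) (he : Function.Injective e)
    (F : ι → ι → ZMod 2) (h0 : ∀ P, F P P = 0) (h : ∀ P Q, F P Q + F Q P = 0) :
    ∑ P ∈ R, ∑ Q ∈ R, F P Q = 0 := by
  rw [sym_split R e he]
  simp [h0, h]

/-- changing the order used to select unordered pairs -/
lemma order_change {ι : Type*} (R : Finset ι) (e k : ι → ℕ) (he : Function.Injective e)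
    (h : ι → ι → ZMod 2) (hsymm : ∀ P Q, h P Q = h Q P) (hk : ∀ P Q, k P = k Q → h P Q = 0) :
    ∑ P ∈ R, ∑ Q ∈ R, (if e P < e Q then h P Q else 0) =
      ∑ P ∈ R, ∑ Q ∈ R, (if k P < k Q then h P Q else 0) := by
  have key := antisym_zero R e he
    (fun P Q => (if e P < e Q then h P Q else 0) + (if k P < k Q then h P Q else 0))
    (by intro P; simp) (by
      intro P Q
      rw [hsymm Q P]
      by_cases hkk : k P = k Q
      · rw [hk P Q hkk]; simp
      · have hne : e P ≠ e Q := fun h => hkk (by rw [he h])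
        have h2 := zmod2_add_self (h P Q)
        rcases lt_or_gt_of_ne hkk with a | a <;> rcases lt_or_gt_of_ne hne with b | b <;>
          simp [a, b, not_lt.mpr a.le, not_lt.mpr b.le, h2])
  simp only [sum_add_distrib] at key
  have h2 := zmod2_add_self (∑ P ∈ R, ∑ Q ∈ R, (if k P < k Q then h P Q else 0))
  linear_combination key - h2

/-- the counting of pairs of the same type in two classes -/
lemma count_zero {ι κ : Type*} [DecidableEq κ] (C C' : Finset ι) (t : ι → κ)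
    (hC : ((C.card : ℕ) : ZMod 2) = 0) (hC' : ((C'.card : ℕ) : ZMod 2) = 0)
    (h1 : ∀ P ∈ C, ∀ Q ∈ C, t P ≠ t Q → ∀ P' ∈ C, t P' = t P ∨ t P' = t Q)
    (h2 : ∀ P ∈ C, ∀ Q ∈ C, t P ≠ t Q → ∀ P' ∈ C', t P' = t P ∨ t P' = t Q) :
    ∑ P ∈ C, ∑ Q ∈ C', (if t P = t Q then (1 : ZMod 2) else 0) = 0 := by
  by_cases hall : ∃ P ∈ C, ∃ Q ∈ C, t P ≠ t Q
  · obtain ⟨P₀, hP₀, Q₀, hQ₀, hne⟩ := hall
    have g1 := h1 P₀ hP₀ Q₀ hQ₀ hne
    have g2 := h2 P₀ hP₀ Q₀ hQ₀ hne
    have e1 : ∀ P ∈ C, ∀ Q ∈ C', (if t P = t Q then (1 : ZMod 2) else 0) =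
        (if t P = t P₀ then (1 : ZMod 2) else 0) * (if t Q = t P₀ then 1 else 0) +
        (if t P = t Q₀ then (1 : ZMod 2) else 0) * (if t Q = t Q₀ then 1 else 0) := by
      intro P hP Q hQ
      rcases g1 P hP with a | a <;> rcases g2 Q hQ with b | b <;> rw [a, b]
      · simp [hne]
      · simp [hne, hne.symm]
      · simp [hne, hne.symm]
      · simp [hne.symm]
    rw [sum_congr rfl (fun P hP => sum_congr rfl (fun Q hQ => e1 P hP Q hQ))]
    simp only [sum_add_distrib, ← mul_sum, ← sum_mul]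
    have e2 : (∑ P ∈ C, (if t P = t P₀ then (1 : ZMod 2) else 0)) +
        ∑ P ∈ C, (if t P = t Q₀ then (1 : ZMod 2) else 0) = 0 := by
      apply Eq.trans _ hC
      rw [← sum_add_distrib, card_eq_sum_ones, Nat.cast_sum]
      apply sum_congr rfl
      intro P hP
      rcases g1 P hP with a | a <;> rw [a]
      · simp [hne]
      · simp [hne.symm]
    have e3 : (∑ P ∈ C', (if t P = t P₀ then (1 : ZMod 2) else 0)) +
        ∑ P ∈ C', (if t P = t Q₀ then (1 : ZMod 2) else 0) = 0 := by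
      apply Eq.trans _ hC'
      rw [← sum_add_distrib, card_eq_sum_ones, Nat.cast_sum]
      apply sum_congr rfl
      intro P hP
      rcases g2 P hP with a | a <;> rw [a]
      · simp [hne]
      · simp [hne.symm]
    set a1 := ∑ P ∈ C, (if t P = t P₀ then (1 : ZMod 2) else 0)
    set a2 := ∑ P ∈ C, (if t P = t Q₀ then (1 : ZMod 2) else 0)
    set b1 := ∑ P ∈ C', (if t P = t P₀ then (1 : ZMod 2) else 0)
    set b2 := ∑ P ∈ C', (if t P = t Q₀ then (1 : ZMod 2) else 0)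
    have f := zmod2_add_self (a1 * b1)
    linear_combination f + a2 * e3 - b1 * e2
  · push Not at hall
    rcases C.eq_empty_or_nonempty with h0 | ⟨P₀, hP₀⟩
    · rw [h0]; simp
    · have e1 : ∀ P ∈ C, ∑ Q ∈ C', (if t P = t Q then (1 : ZMod 2) else 0) =
          ∑ Q ∈ C', (if t P₀ = t Q then (1 : ZMod 2) else 0) := by
        intro P hP
        rw [hall P hP P₀ hP₀]
      rw [sum_congr rfl e1, sum_const, nsmul_eq_mul, hC, zero_mul]

end Pool.Agent.Lib_helper53.Thick
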