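import Mathlib
import Pool.Agent.Lib_helper53.Thick.Degree

set_option autoImplicit false

/-!
# Collapsing monochromatic components; walls
-/

namespace Pool.Agent.Lib_helper53.Thick

open Finset

/-- adjacent lattice points of the same colour -/
def Mono (c : ℂ → Fin 6) (x y : Pt) : Prop := ‖ee x - ee y‖ ≤ 1 ∧ c (ee x) = c (ee y)

lemma Mono.symm {c : ℂ → Fin 6} {x y : Pt} (h : Mono c x y) : Mono c y x :=
  ⟨by rw [norm_sub_rev]; exact h.1, h.2.symm⟩

lemma rtg_symm {α : Type*} {ρ : α → α → Prop} (hρ : ∀ x y, ρ x y → ρ y x) {x y : α}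
    (h : Relation.ReflTransGen ρ x y) : Relation.ReflTransGen ρ y x := by
  induction h with
  | refl => exact Relation.ReflTransGen.refl
  | tail _ h2 ih => exact Relation.ReflTransGen.head (hρ _ _ h2) ih

/-- monochromatic components -/
def mset (c : ℂ → Fin 6) : Setoid Pt where
  r := Relation.ReflTransGen (Mono c)
  iseqv := ⟨fun _ => Relation.ReflTransGen.refl, fun h => rtg_symm (fun _ _ h => Mono.symm h) h,
    fun h1 h2 => h1.trans h2⟩

/-- representative of the monochromatic component -/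
noncomputable def aa (c : ℂ → Fin 6) (x : Pt) : Pt := (Quotient.mk (mset c) x).out

lemma aa_rel (c : ℂ → Fin 6) (x : Pt) : Relation.ReflTransGen (Mono c) (aa c x) x :=
  Quotient.exact (s := mset c) (Quotient.out_eq (Quotient.mk (mset c) x))

lemma aa_eq {c : ℂ → Fin 6} {x y : Pt} (h : Mono c x y) : aa c x = aa c y := by
  unfold aa
  congr 1
  exact Quotient.sound (s := mset c) (Relation.ReflTransGen.single h)

/-- strip classes -/
def sset (c : ℂ → Fin 6) (l m : Fin 6) : Setoid Tri where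
  r := Conn c l m
  iseqv := ⟨fun _ => Relation.ReflTransGen.refl, fun h => h.symm, fun h1 h2 => h1.trans h2⟩

/-- representative of the strip class -/
noncomputable def krep (c : ℂ → Fin 6) (l m : Fin 6) (τ : Tri) : Tri :=
  (Quotient.mk (sset c l m) τ).out

lemma krep_conn (c : ℂ → Fin 6) (l m : Fin 6) (τ : Tri) : Conn c l m (krep c l m τ) τ :=
  Quotient.exact (s := sset c l m) (Quotient.out_eq (Quotient.mk (sset c l m) τ))

lemma krep_eq {c : ℂ → Fin 6} {l m : Fin 6} {τ τ' : Tri} (h : Conn c l m τ τ') :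
    krep c l m τ = krep c l m τ' := by
  unfold krep
  congr 1
  exact Quotient.sound (s := sset c l m) h

/-- collapsed position of the vertex of colour `l` -/
noncomputable def av (c : ℂ → Fin 6) (τ : Tri) (l : Fin 6) : Pt :=
  if c (ee (vtx τ 0)) = l then aa c (vtx τ 0)
  else if c (ee (vtx τ 1)) = l then aa c (vtx τ 1) else aa c (vtx τ 2)

lemma av_eq {c : ℂ → Fin 6} {τ : Tri} {l : Fin 6} {x : Pt} (hx : Vl c l τ x) :
    av c τ l = aa c x := by
  unfold av
  by_cases h0 : c (ee (vtx τ 0)) = l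
  · rw [if_pos h0]
    exact aa_eq ⟨Vl.dist (l := l) (m := l) ⟨⟨0, rfl⟩, h0⟩ hx, h0.trans hx.2.symm⟩
  · rw [if_neg h0]
    by_cases h1 : c (ee (vtx τ 1)) = l
    · rw [if_pos h1]
      exact aa_eq ⟨Vl.dist (l := l) (m := l) ⟨⟨1, rfl⟩, h1⟩ hx, h1.trans hx.2.symm⟩
    · rw [if_neg h1]
      obtain ⟨⟨i, hi⟩, h2⟩ := hx
      fin_cases i
      · exact absurd (by rw [← h2, ← hi]; rfl) h0
      · exact absurd (by rw [← h2, ← hi]; rfl) h1
      · rw [← hi]; rfl

lemma conn_av {c : ℂ → Fin 6} {l m : Fin 6} {τ τ' : Tri} (h : Conn c l m τ τ') :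
    av c τ l = av c τ' l := by
  induction h with
  | refl => rfl
  | tail _ h2 ih =>
    obtain ⟨u, h3, h4⟩ := h2.shared
    rw [ih, av_eq h3, av_eq h4]

section

variable {c : ℂ → Fin 6} {r s : ℝ}

lemma Good.aa_near (G : Good c r s) (x : Pt) : ‖ee (aa c x) - ee x‖ < r - s := by
  have h := aa_rel c x
  have hs := G.hs
  have hr := G.hr
  have key : ∀ y, Relation.ReflTransGen (Mono c) (aa c x) y →
      c (ee (aa c x)) = c (ee y) ∧ ‖ee (aa c x) - ee y‖ < r - s := by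
    intro y hy
    induction hy with
    | refl =>
      refine ⟨rfl, G.near rfl ?_⟩
      rw [sub_self, norm_zero]; linarith
    | @tail u v _ h2 ih =>
      refine ⟨ih.1.trans h2.2, G.near (ih.1.trans h2.2) ?_⟩
      have := norm_sub_le_norm_sub_add_norm_sub (ee (aa c x)) (ee u) (ee v)
      have h3 := h2.1
      have h4 := ih.2
      linarith
  exact (key x h).2

lemma Good.near_iff (G : Good c r s) {l : Fin 6} {P P' : Tri} {x x' : Pt} (hx : Vl c l P x)
    (hx' : Vl c l P' x') : ‖ee P.1 - ee P'.1‖ < r ↔ ‖ee x - ee x'‖ < r - s := by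
  have hs := G.hs
  have e1 := hx.base
  have e2 := hx'.base
  have e3 := norm_sub_le_norm_sub_add_norm_sub (ee x) (ee P.1) (ee x')
  have e4 := norm_sub_le_norm_sub_add_norm_sub (ee P.1) (ee P'.1) (ee x')
  have e5 := norm_sub_le_norm_sub_add_norm_sub (ee P.1) (ee x) (ee P'.1)
  have e6 := norm_sub_le_norm_sub_add_norm_sub (ee x) (ee x') (ee P'.1)
  rw [norm_sub_rev (ee P'.1) (ee x')] at e4
  rw [norm_sub_rev (ee P.1) (ee x)] at e5
  constructor
  · intro h
    exact G.near (hx.2.trans hx'.2.symm) (by linarith)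
  · intro h
    linarith

lemma Good.near_conn (G : Good c r s) {l m : Fin 6} {P P₁ P' : Tri} (h : Conn c l m P P₁)
    (hl : l ∈ ty c P) (hl' : l ∈ ty c P') (hn : ‖ee P.1 - ee P'.1‖ < r) :
    ‖ee P₁.1 - ee P'.1‖ < r := by
  obtain ⟨x, hx⟩ := exists_Vl hl
  obtain ⟨x', hx'⟩ := exists_Vl hl'
  obtain ⟨x₁, hx₁⟩ := exists_Vl (h.mem hl)
  rw [G.near_iff hx hx'] at hn
  rw [G.near_iff hx₁ hx']
  exact G.conn_near h hx'.2 hx hx₁ hn

lemma Good.conn_self_near (G : Good c r s) {l m : Fin 6} {P P₁ : Tri} (h : Conn c l m P P₁)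
    (hl : l ∈ ty c P) : ‖ee P.1 - ee P₁.1‖ < r := by
  have hs := G.hs
  have hr := G.hr
  rw [norm_sub_rev]
  exact G.near_conn h hl hl (by rw [sub_self, norm_zero]; linarith)

lemma Good.near_krep (G : Good c r s) {l m : Fin 6} {P P' : Tri}
    (hl : l ∈ ty c P) (hl' : l ∈ ty c P') : ‖ee P.1 - ee P'.1‖ < r ↔
    ‖ee (krep c l m P).1 - ee (krep c l m P').1‖ < r := by
  have h1 := krep_conn c l m P
  have h2 := krep_conn c l m P'
  have g1 := h1.symm.mem hl
  have g2 := h2.symm.mem hl'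
  constructor
  · intro h
    have h3 := G.near_conn h1.symm hl hl' h
    rw [norm_sub_rev] at h3
    have h4 := G.near_conn h2.symm hl' g1 h3
    rwa [norm_sub_rev] at h4
  · intro h
    have h3 := G.near_conn h1 g1 g2 h
    rw [norm_sub_rev] at h3
    have h4 := G.near_conn h2 g2 hl h3
    rwa [norm_sub_rev] at h4

/-- collapsed vertices are close to the triangle -/
lemma Good.av_near (G : Good c r s) (τ : Tri) (l : Fin 6) : ‖ee (av c τ l) - ee τ.1‖ ≤ r := by
  have hs := G.hs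
  have key : ∀ i, ‖ee (aa c (vtx τ i)) - ee τ.1‖ ≤ r := by
    intro i
    have h1 := G.aa_near (vtx τ i)
    have h2 := vtx_base τ i
    have h3 := norm_sub_le_norm_sub_add_norm_sub (ee (aa c (vtx τ i))) (ee (vtx τ i)) (ee τ.1)
    linarith
  unfold av
  split_ifs
  · exact key 0
  · exact key 1
  · exact key 2

end

/-- the wall between two triangles -/
noncomputable def wall (c : ℂ → Fin 6) (P Q : Tri) (l m : Fin 6) : ZMod 2 :=
  alp (av c P l) (av c P m) + alp (av c Q l) (av c Q m) + alp (av c P l) (av c Q l) +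
    alp (av c P m) (av c Q m)

lemma wall_symm (c : ℂ → Fin 6) (P Q : Tri) (l m : Fin 6) : wall c P Q l m = wall c Q P l m := by
  unfold wall
  rw [alp_symm (av c P l) (av c Q l), alp_symm (av c P m) (av c Q m)]
  ring

lemma wall_congr {c : ℂ → Fin 6} {P Q P' Q' : Tri} {l m : Fin 6} (h1 : av c P l = av c P' l)
    (h2 : av c P m = av c P' m) (h3 : av c Q l = av c Q' l) (h4 : av c Q m = av c Q' m) :
    wall c P Q l m = wall c P' Q' l m := by
  unfold wall
  rw [h1, h2, h3, h4]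

lemma wall_self {c : ℂ → Fin 6} {P Q : Tri} {l m : Fin 6} (h1 : av c P l = av c Q l)
    (h2 : av c P m = av c Q m) : wall c P Q l m = 0 := by
  unfold wall
  rw [h1, h2, alp_self, alp_self, add_zero, add_zero]
  exact zmod2_add_self _

set_option maxRecDepth 1000000 in
lemma pairs_sorted : ∀ x y z : Fin 6, x < y → y < z →
    univ.filter (fun p : Fin 6 × Fin 6 => p.1 < p.2 ∧ (p.1 ∈ ({x, y, z} : Finset (Fin 6)) ∧
      p.2 ∈ ({x, y, z} : Finset (Fin 6)))) = {(x, y), (x, z), (y, z)} := by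
  decide +kernel

lemma pairsum_sorted (β : Fin 6 → Fin 6 → ZMod 2) {x y z : Fin 6} (hxy : x < y) (hyz : y < z) :
    ∑ p ∈ univ.filter (fun p : Fin 6 × Fin 6 => p.1 < p.2),
      (if p.1 ∈ ({x, y, z} : Finset (Fin 6)) ∧ p.2 ∈ ({x, y, z} : Finset (Fin 6)) then
        β p.1 p.2 else 0) = β x y + β x z + β y z := by
  rw [← sum_filter, filter_filter, pairs_sorted x y z hxy hyz, sum_insert, sum_insert,
    sum_singleton, add_assoc]
  · simp [hxy.ne]
  · simp [hxy.ne, hyz.ne]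

lemma pairsum (β : Fin 6 → Fin 6 → ZMod 2) (hs : ∀ u v, β u v = β v u) {a b d : Fin 6}
    (hab : a ≠ b) (had : a ≠ d) (hbd : b ≠ d) :
    ∑ p ∈ univ.filter (fun p : Fin 6 × Fin 6 => p.1 < p.2),
      (if p.1 ∈ ({a, b, d} : Finset (Fin 6)) ∧ p.2 ∈ ({a, b, d} : Finset (Fin 6)) then
        β p.1 p.2 else 0) = β b d + β d a + β a b := by
  have s1 : ({a, b, d} : Finset (Fin 6)) = {a, d, b} := by ext n; simp; tauto
  have s2 : ({a, b, d} : Finset (Fin 6)) = {b, a, d} := by ext n; simp; tauto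
  have s3 : ({a, b, d} : Finset (Fin 6)) = {b, d, a} := by ext n; simp; tauto
  have s4 : ({a, b, d} : Finset (Fin 6)) = {d, a, b} := by ext n; simp; tauto
  have s5 : ({a, b, d} : Finset (Fin 6)) = {d, b, a} := by ext n; simp; tauto
  rcases lt_or_gt_of_ne hab with h1 | h1 <;> rcases lt_or_gt_of_ne had with h2 | h2 <;>
    rcases lt_or_gt_of_ne hbd with h3 | h3
  · rw [pairsum_sorted β h1 h3, hs d a]; ring
  · rw [s1, pairsum_sorted β h2 h3, hs d a, hs d b]; ring
  · exact absurd (h1.trans h3) (not_lt.mpr h2.le)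
  · rw [s4, pairsum_sorted β h2 h1, hs d b]; ring
  · rw [s2, pairsum_sorted β h1 h2, hs b a, hs d a]; ring
  · exact absurd (h2.trans h3) (not_lt.mpr h1.le)
  · rw [s3, pairsum_sorted β h3 h2, hs b a]; ring
  · rw [s5, pairsum_sorted β h3 h1, hs d b, hs b a]

/-- the collapsed triangle -/
noncomputable def WW (c : ℂ → Fin 6) (τ : Tri) : ZMod 2 :=
  bd (fun u v => alp (aa c u) (aa c v)) τ

lemma WW_nonrainbow {c : ℂ → Fin 6} {τ : Tri} (h : (ty c τ).card ≠ 3) : WW c τ = 0 := by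
  have h1 : ¬ (c (ee (vtx τ 0)) ≠ c (ee (vtx τ 1)) ∧ c (ee (vtx τ 0)) ≠ c (ee (vtx τ 2)) ∧
      c (ee (vtx τ 1)) ≠ c (ee (vtx τ 2))) := fun h' => h ((card3_iff _ _ _).mpr h')
  have h2 : c (ee (vtx τ 0)) = c (ee (vtx τ 1)) ∨ c (ee (vtx τ 0)) = c (ee (vtx τ 2)) ∨
      c (ee (vtx τ 1)) = c (ee (vtx τ 2)) := by tauto
  change alp (aa c (vtx τ 1)) (aa c (vtx τ 2)) + alp (aa c (vtx τ 2)) (aa c (vtx τ 0)) +
    alp (aa c (vtx τ 0)) (aa c (vtx τ 1)) = 0
  rcases h2 with h2 | h2 | h2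
  · rw [aa_eq ⟨vtx_dist τ 0 1, h2⟩, alp_self, alp_symm (aa c (vtx τ 2)), add_zero]
    exact zmod2_add_self _
  · rw [aa_eq ⟨vtx_dist τ 0 2, h2⟩, alp_self, alp_symm (aa c (vtx τ 2)), add_zero]
    exact zmod2_add_self _
  · rw [aa_eq ⟨vtx_dist τ 1 2, h2⟩, alp_self, alp_symm (aa c (vtx τ 2)), zero_add]
    exact zmod2_add_self _

lemma WW_rainbow {c : ℂ → Fin 6} {τ : Tri} (h : (ty c τ).card = 3) :
    WW c τ = ∑ p ∈ univ.filter (fun p : Fin 6 × Fin 6 => p.1 < p.2),
      (if p.1 ∈ ty c τ ∧ p.2 ∈ ty c τ then alp (av c τ p.1) (av c τ p.2) else 0) := by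
  obtain ⟨h1, h2, h3⟩ := (card3_iff _ _ _).mp h
  unfold ty
  rw [pairsum (fun l m => alp (av c τ l) (av c τ m)) (fun u v => alp_symm _ _) h1 h2 h3]
  rw [av_eq (x := vtx τ 0) ⟨⟨0, rfl⟩, rfl⟩, av_eq (x := vtx τ 1) ⟨⟨1, rfl⟩, rfl⟩,
    av_eq (x := vtx τ 2) ⟨⟨2, rfl⟩, rfl⟩]
  rfl

lemma wall_sum {c : ℂ → Fin 6} {P Q : Tri} (hP : (ty c P).card = 3) (h : ty c P = ty c Q) :
    WW c P + WW c Q = ∑ p ∈ univ.filter (fun p : Fin 6 × Fin 6 => p.1 < p.2),
      (if p.1 ∈ ty c P ∧ p.2 ∈ ty c P then wall c P Q p.1 p.2 else 0) := by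
  rw [WW_rainbow hP, WW_rainbow (h ▸ hP), ← h]
  obtain ⟨h1, h2, h3⟩ := (card3_iff _ _ _).mp hP
  have key := pairsum (fun l m => alp (av c P l) (av c Q l) + alp (av c P m) (av c Q m))
    (fun u v => add_comm _ _) h1 h2 h3
  have key2 : ∑ p ∈ univ.filter (fun p : Fin 6 × Fin 6 => p.1 < p.2),
      (if p.1 ∈ ty c P ∧ p.2 ∈ ty c P then
        alp (av c P p.1) (av c Q p.1) + alp (av c P p.2) (av c Q p.2) else 0) = 0 := by
    unfold ty at key ⊢
    rw [key]
    have e0 := zmod2_add_self (alp (av c P (c (ee (vtx P 0)))) (av c Q (c (ee (vtx P 0)))))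
    have e1 := zmod2_add_self (alp (av c P (c (ee (vtx P 1)))) (av c Q (c (ee (vtx P 1)))))
    have e2 := zmod2_add_self (alp (av c P (c (ee (vtx P 2)))) (av c Q (c (ee (vtx P 2)))))
    linear_combination e0 + e1 + e2
  have e3 : ∑ p ∈ univ.filter (fun p : Fin 6 × Fin 6 => p.1 < p.2),
      (if p.1 ∈ ty c P ∧ p.2 ∈ ty c P then wall c P Q p.1 p.2 else 0) =
      (∑ p ∈ univ.filter (fun p : Fin 6 × Fin 6 => p.1 < p.2),
        (if p.1 ∈ ty c P ∧ p.2 ∈ ty c P then alp (av c P p.1) (av c P p.2) else 0) +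
      ∑ p ∈ univ.filter (fun p : Fin 6 × Fin 6 => p.1 < p.2),
        (if p.1 ∈ ty c P ∧ p.2 ∈ ty c P then alp (av c Q p.1) (av c Q p.2) else 0)) +
      ∑ p ∈ univ.filter (fun p : Fin 6 × Fin 6 => p.1 < p.2),
      (if p.1 ∈ ty c P ∧ p.2 ∈ ty c P then
        alp (av c P p.1) (av c Q p.1) + alp (av c P p.2) (av c Q p.2) else 0) := by
    rw [← sum_add_distrib, ← sum_add_distrib]
    apply sum_congr rfl
    intro p _
    unfold wall
    split_ifs
    · ring
    · simp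
  rw [e3, key2, add_zero]

end Pool.Agent.Lib_helper53.Thick
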