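import Mathlib
import Pool.Agent.Lib_helper53.Thick.Walls

set_option autoImplicit false

/-!
# No colouring of the plane with six colours and a forbidden interval of distances
-/

namespace Pool.Agent.Lib_helper53.Thick

open Finset

section

variable {c : ℂ → Fin 6} {r s : ℝ}

/-- far from the origin, a neighbourhood lies in one of four half planes -/
lemma region {N : ℕ} (hN : 10 * r ≤ N) (hr : 0 < r) {P : Pt}
    (hfar : (N : ℤ) < |P.1| ∨ (N : ℤ) < |P.2|) :
    (∀ x : Pt, ‖ee x - ee P‖ ≤ 4 * r → x.1 < 0) ∨ (∀ x : Pt, ‖ee x - ee P‖ ≤ 4 * r → 0 ≤ x.1) ∨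
    (∀ x : Pt, ‖ee x - ee P‖ ≤ 4 * r → x.2 < 0) ∨ (∀ x : Pt, ‖ee x - ee P‖ ≤ 4 * r → 0 ≤ x.2) := by
  have key : ∀ x : Pt, ‖ee x - ee P‖ ≤ 4 * r → |x.1 - P.1| < N ∧ |x.2 - P.2| < N := by
    intro x hx
    obtain ⟨h1, h2⟩ := coord_le x P
    constructor
    · have : |(x.1 : ℝ) - P.1| < N := by linarith
      exact_mod_cast this
    · have : |(x.2 : ℝ) - P.2| < N := by linarith
      exact_mod_cast this
  rcases hfar with h | h
  · rcases lt_abs.mp h with h1 | h1
    · right; left
      intro x hx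
      have := (abs_lt.mp (key x hx).1)
      omega
    · left
      intro x hx
      have := (abs_lt.mp (key x hx).1)
      omega
  · rcases lt_abs.mp h with h1 | h1
    · right; right; right
      intro x hx
      have := (abs_lt.mp (key x hx).2)
      omega
    · right; right; left
      intro x hx
      have := (abs_lt.mp (key x hx).2)
      omega

lemma Good.WW_far (G : Good c r s) {N : ℕ} (hN : 10 * r ≤ N) {τ : Tri}
    (hfar : (N : ℤ) < |τ.1.1| ∨ (N : ℤ) < |τ.1.2|) : WW c τ = 0 := by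
  have hs := G.hs
  have hr := G.hr
  have hr0 : 0 < r := by linarith
  have key : ∀ i, ‖ee (aa c (vtx τ i)) - ee τ.1‖ ≤ 4 * r := by
    intro i
    have h1 := G.aa_near (vtx τ i)
    have h2 := vtx_base τ i
    have h3 := norm_sub_le_norm_sub_add_norm_sub (ee (aa c (vtx τ i))) (ee (vtx τ i)) (ee τ.1)
    linarith
  change alp (aa c (vtx τ 1)) (aa c (vtx τ 2)) + alp (aa c (vtx τ 2)) (aa c (vtx τ 0)) +
    alp (aa c (vtx τ 0)) (aa c (vtx τ 1)) = 0
  rcases region hN hr0 hfar with h | h | h | h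
  · rw [alp_neg (h _ (key 1)) (h _ (key 2)), alp_neg (h _ (key 2)) (h _ (key 0)),
      alp_neg (h _ (key 0)) (h _ (key 1))]
    rfl
  · rw [alp_nonneg (h _ (key 1)) (h _ (key 2)), alp_nonneg (h _ (key 2)) (h _ (key 0)),
      alp_nonneg (h _ (key 0)) (h _ (key 1))]
    rfl
  · rw [alp_low (h _ (key 1)) (h _ (key 2)), alp_low (h _ (key 2)) (h _ (key 0)),
      alp_low (h _ (key 0)) (h _ (key 1))]
    rfl
  · rw [alp_high (h _ (key 1)) (h _ (key 2)), alp_high (h _ (key 2)) (h _ (key 0)),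
      alp_high (h _ (key 0)) (h _ (key 1))]
    have e0 := zmod2_add_self (lft (aa c (vtx τ 0)))
    have e1 := zmod2_add_self (lft (aa c (vtx τ 1)))
    have e2 := zmod2_add_self (lft (aa c (vtx τ 2)))
    linear_combination e0 + e1 + e2

lemma Good.wall_far (G : Good c r s) {N : ℕ} (hN : 10 * r ≤ N) {P Q : Tri}
    (hn : ‖ee P.1 - ee Q.1‖ < r)
    (hfar : (N : ℤ) < |P.1.1| ∨ (N : ℤ) < |P.1.2|) (l m : Fin 6) : wall c P Q l m = 0 := by
  have hs := G.hs
  have hr := G.hr
  have hr0 : 0 < r := by linarith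
  have k1 : ∀ i, ‖ee (av c P i) - ee P.1‖ ≤ 4 * r := by
    intro i
    have h1 := G.av_near P i
    linarith
  have k2 : ∀ i, ‖ee (av c Q i) - ee P.1‖ ≤ 4 * r := by
    intro i
    have h1 := G.av_near Q i
    have h3 := norm_sub_le_norm_sub_add_norm_sub (ee (av c Q i)) (ee Q.1) (ee P.1)
    rw [norm_sub_rev (ee Q.1)] at h3
    linarith
  unfold wall
  rcases region hN hr0 hfar with h | h | h | h
  · rw [alp_neg (h _ (k1 l)) (h _ (k1 m)), alp_neg (h _ (k2 l)) (h _ (k2 m)),
      alp_neg (h _ (k1 l)) (h _ (k2 l)), alp_neg (h _ (k1 m)) (h _ (k2 m))]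
    rfl
  · rw [alp_nonneg (h _ (k1 l)) (h _ (k1 m)), alp_nonneg (h _ (k2 l)) (h _ (k2 m)),
      alp_nonneg (h _ (k1 l)) (h _ (k2 l)), alp_nonneg (h _ (k1 m)) (h _ (k2 m))]
    rfl
  · rw [alp_low (h _ (k1 l)) (h _ (k1 m)), alp_low (h _ (k2 l)) (h _ (k2 m)),
      alp_low (h _ (k1 l)) (h _ (k2 l)), alp_low (h _ (k1 m)) (h _ (k2 m))]
    rfl
  · rw [alp_high (h _ (k1 l)) (h _ (k1 m)), alp_high (h _ (k2 l)) (h _ (k2 m)),
      alp_high (h _ (k1 l)) (h _ (k2 l)), alp_high (h _ (k1 m)) (h _ (k2 m))]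
    have e0 := zmod2_add_self (lft (av c P l))
    have e1 := zmod2_add_self (lft (av c P m))
    have e2 := zmod2_add_self (lft (av c Q l))
    have e3 := zmod2_add_self (lft (av c Q m))
    linear_combination e0 + e1 + e2 + e3

/-- the number of triangles of the type of `P` near `P` is even -/
lemma Good.even_near' (G : Good c r s) {N : ℕ} (hN : 10 * r ≤ N) {P : Tri}
    (hP : (ty c P).card = 3) (hP1 : |P.1.1| ≤ N) (hP2 : |P.1.2| ≤ N)
    [DecidablePred fun Q : Tri => ty c P = ty c Q ∧ ‖ee P.1 - ee Q.1‖ < r] :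
    ∑ Q ∈ (bx (3 * N)).filter (fun τ => (ty c τ).card = 3),
      (if ty c P = ty c Q ∧ ‖ee P.1 - ee Q.1‖ < r then (1 : ZMod 2) else 0) = 0 := by
  have hs := G.hs
  have hr := G.hr
  apply Eq.trans _ (G.even_near hP 0)
  unfold RR
  rw [← sum_filter, ← sum_filter]
  apply sum_congr _ (fun _ _ => rfl)
  ext Q
  simp only [mem_filter, mem_disc, mem_bx]
  have hV : Vl c (c (ee (vtx P 0))) P (vtx P 0) := ⟨⟨0, rfl⟩, rfl⟩
  have hb := vtx_base P 0
  constructor
  · rintro ⟨⟨_, _⟩, h3, h4⟩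
    refine ⟨?_, h3.symm⟩
    obtain ⟨x, hx⟩ := exists_Vl (h3 ▸ hV.mem)
    have h5 := (G.near_iff hV hx).mp h4
    have h6 := hx.base
    have h7 := norm_sub_le_norm_sub_add_norm_sub (ee (vtx P 0)) (ee x) (ee Q.1)
    rw [norm_sub_rev (ee (vtx P 0)) (ee Q.1)] at h7
    linarith
  · rintro ⟨h3, h4⟩
    obtain ⟨x, hx⟩ := exists_Vl (h4.symm ▸ hV.mem)
    have h6 := hx.base
    have h7 := norm_sub_le_norm_sub_add_norm_sub (ee (vtx P 0)) (ee Q.1) (ee x)
    rw [norm_sub_rev (ee (vtx P 0)) (ee Q.1), norm_sub_rev (ee Q.1) (ee x)] at h7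
    have h8 : ‖ee (vtx P 0) - ee x‖ < r - s := G.near (hV.2.trans hx.2.symm) (by linarith)
    have h9 := (G.near_iff hV hx).mpr h8
    refine ⟨⟨?_, by rw [h4]; exact hP⟩, h4.symm, h9⟩
    obtain ⟨g1, g2⟩ := coord_le P.1 Q.1
    have g3 : |(P.1.1 : ℝ) - Q.1.1| < N := by linarith
    have g4 : |(P.1.2 : ℝ) - Q.1.2| < N := by linarith
    have g5 : |P.1.1 - Q.1.1| < N := by exact_mod_cast g3
    have g6 : |P.1.2 - Q.1.2| < N := by exact_mod_cast g4
    rw [abs_lt] at g5 g6
    rw [abs_le] at hP1 hP2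
    push_cast
    omega

/-- classes contain an even number of rainbow triangles -/
lemma Good.class_even (G : Good c r s) {N : ℕ} (hN : 10 * r ≤ N) {l m : Fin 6} (hlm : l ≠ m)
    {κ : Tri} (h1 : |κ.1.1| ≤ N) (h2 : |κ.1.2| ≤ N) :
    ((((bx (3 * N)).filter (fun τ => (ty c τ).card = 3)).filter
      (fun τ => l ∈ ty c τ ∧ m ∈ ty c τ)).filter (fun τ => krep c l m τ = κ)).card =
      (0 : ZMod 2) := by
  classical
  have hs := G.hs
  have hr := G.hr
  set D := (bx (3 * N)).filter (fun τ => krep c l m τ = κ) with hD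
  have key : ∑ τ ∈ D, bd (fun u v => bet c l m (ee u) (ee v)) τ = 0 := by
    apply sum_bd_eq_zero _ _ (fun u v => bet_symm _ _ _ _ _)
    intro τ hτ d hd
    by_contra hne
    apply hd
    rw [hD, mem_filter, mem_bx] at hτ ⊢
    have hst : Stp c l m τ (nb d τ) := ⟨d, rfl, hne⟩
    have hc : Conn c l m τ (nb d τ) := Relation.ReflTransGen.single hst
    refine ⟨?_, (krep_eq hc).symm.trans hτ.2⟩
    obtain ⟨u, hu1, hu2⟩ := hst.shared
    have hk := krep_conn c l m (nb d τ)
    rw [(krep_eq hc).symm.trans hτ.2] at hk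
    have h3 := G.conn_self_near hk.symm hu2.mem
    obtain ⟨g1, g2⟩ := coord_le (nb d τ).1 κ.1
    have g3 : |((nb d τ).1.1 : ℝ) - κ.1.1| < N := by linarith
    have g4 : |((nb d τ).1.2 : ℝ) - κ.1.2| < N := by linarith
    have g5 : |(nb d τ).1.1 - κ.1.1| < N := by exact_mod_cast g3
    have g6 : |(nb d τ).1.2 - κ.1.2| < N := by exact_mod_cast g4
    rw [abs_lt] at g5 g6
    rw [abs_le] at h1 h2
    push_cast
    omega
  rw [sum_congr rfl (fun τ _ => bd_bet hlm τ), ← sum_filter, sum_const, nsmul_eq_mul, mul_one]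
    at key
  rw [← key]
  congr 2
  ext τ
  simp only [hD, mem_filter]
  tauto

/-- the contribution of one pair of colours vanishes -/
lemma Good.pair_zero (G : Good c r s) {N : ℕ} (hN : 10 * r ≤ N) {l m : Fin 6} (hlm : l ≠ m)
    (e : Tri → ℕ) (he : Function.Injective e) (R : Finset Tri)
    (hR : R = (bx (3 * N)).filter (fun τ => (ty c τ).card = 3))
    (h : Tri → Tri → ZMod 2)
    (hh1 : ∀ P Q, ty c P = ty c Q → ‖ee P.1 - ee Q.1‖ < r → (ty c P).card = 3 →
      l ∈ ty c P → m ∈ ty c P → h P Q = wall c P Q l m)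
    (hh2 : ∀ P Q, ¬ (ty c P = ty c Q ∧ ‖ee P.1 - ee Q.1‖ < r ∧ (ty c P).card = 3 ∧
      l ∈ ty c P ∧ m ∈ ty c P) → h P Q = 0) :
    ∑ P ∈ R, ∑ Q ∈ R, (if e P < e Q then h P Q else 0) = 0 := by
  classical
  have hs := G.hs
  have hr := G.hr
  have havl : ∀ P, av c P l = av c (krep c l m P) l := fun P => (conn_av (krep_conn c l m P)).symm
  have havm : ∀ P, av c P m = av c (krep c l m P) m :=
    fun P => (conn_av (krep_conn c l m P).comm).symm
  rw [order_change R e (fun τ => e (krep c l m τ)) he h]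
  · -- grouping
    set H : Tri → Tri → ZMod 2 := fun κ κ' =>
      if e κ < e κ' ∧ ‖ee κ.1 - ee κ'.1‖ < r then wall c κ κ' l m else 0 with hH
    set Rl := R.filter (fun τ => l ∈ ty c τ ∧ m ∈ ty c τ) with hRl
    have hmem : ∀ P ∈ Rl, P ∈ bx (3 * N) ∧ (ty c P).card = 3 ∧ l ∈ ty c P ∧ m ∈ ty c P := by
      intro P hP
      rw [hRl, mem_filter, hR, mem_filter] at hP
      exact ⟨hP.1.1, hP.1.2, hP.2⟩
    have step1 : ∑ P ∈ R, ∑ Q ∈ R, (if e (krep c l m P) < e (krep c l m Q) then h P Q else 0) =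
        ∑ P ∈ Rl, ∑ Q ∈ Rl, (if ty c P = ty c Q then 1 else 0) * H (krep c l m P) (krep c l m Q) := by
      rw [hRl, sum_filter]
      apply sum_congr rfl
      intro P hP
      rw [hR, mem_filter] at hP
      by_cases hPl : l ∈ ty c P ∧ m ∈ ty c P
      · rw [if_pos hPl, sum_filter]
        apply sum_congr rfl
        intro Q hQ
        by_cases hT : ty c P = ty c Q
        · have hQl : l ∈ ty c Q ∧ m ∈ ty c Q := by rw [← hT]; exact hPl
          rw [if_pos hQl, if_pos hT, one_mul]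
          simp only [hH]
          by_cases hk : e (krep c l m P) < e (krep c l m Q)
          · rw [if_pos hk]
            by_cases hn : ‖ee P.1 - ee Q.1‖ < r
            · rw [if_pos ⟨hk, (G.near_krep hPl.1 hQl.1).mp hn⟩, hh1 P Q hT hn hP.2 hPl.1 hPl.2]
              exact wall_congr (havl P) (havm P) (havl Q) (havm Q)
            · rw [if_neg (fun h' => hn ((G.near_krep hPl.1 hQl.1).mpr h'.2)),
                hh2 P Q (fun h' => hn h'.2.1)]
          · rw [if_neg hk, if_neg (fun h' => hk h'.1)]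
        · rw [hh2 P Q (fun h' => hT h'.1), if_neg hT, zero_mul]
          simp
      · rw [if_neg hPl]
        apply sum_eq_zero
        intro Q _
        rw [hh2 P Q (fun h' => hPl h'.2.2.2)]
        simp
    rw [step1]
    have step2 : ∀ κ ∈ Rl.image (krep c l m), ∀ κ' ∈ Rl.image (krep c l m), H κ κ' ≠ 0 →
        ∑ P ∈ Rl.filter (fun τ => krep c l m τ = κ), ∑ Q ∈ Rl.filter (fun τ => krep c l m τ = κ'),
          (if ty c P = ty c Q then (1 : ZMod 2) else 0) = 0 := by
      intro κ _ κ' _ hne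
      have hne' : e κ < e κ' ∧ ‖ee κ.1 - ee κ'.1‖ < r := by
        by_contra hcon
        apply hne
        simp only [hH]
        rw [if_neg hcon]
      have hw : wall c κ κ' l m ≠ 0 := by
        simp only [hH] at hne
        rwa [if_pos hne'] at hne
      have hd1 : |κ.1.1| ≤ N ∧ |κ.1.2| ≤ N := by
        by_contra hcon
        apply hw
        apply G.wall_far hN hne'.2
        by_contra hcon2
        push Not at hcon2
        exact hcon hcon2
      have hd2 : |κ'.1.1| ≤ N ∧ |κ'.1.2| ≤ N := by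
        by_contra hcon
        apply hw
        rw [wall_symm]
        apply G.wall_far hN (by rw [norm_sub_rev]; exact hne'.2)
        by_contra hcon2
        push Not at hcon2
        exact hcon hcon2
      have nearC : ∀ P ∈ Rl, ∀ Q ∈ Rl, ‖ee (krep c l m P).1 - ee (krep c l m Q).1‖ < r →
          ‖ee P.1 - ee Q.1‖ < r := by
        intro P hP Q hQ hn
        exact (G.near_krep (hmem P hP).2.2.1 (hmem Q hQ).2.2.1).mpr hn
      have hself : ‖ee κ.1 - ee κ.1‖ < r := by rw [sub_self, norm_zero]; linarith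
      apply count_zero
      · rw [hRl, hR]; exact G.class_even hN hlm hd1.1 hd1.2
      · rw [hRl, hR]; exact G.class_even hN hlm hd2.1 hd2.2
      · intro P hP Q hQ hT P' hP'
        rw [mem_filter] at hP hQ hP'
        have m1 := hmem P hP.1
        have m2 := hmem Q hQ.1
        have m3 := hmem P' hP'.1
        have hconn : Conn c l m P Q := by
          have a1 := krep_conn c l m P
          have a2 := krep_conn c l m Q
          rw [hP.2] at a1
          rw [hQ.2] at a2
          exact a1.symm.trans a2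
        exact G.strip_types hlm hconn m1.2.1 m2.2.1 m3.2.1 m1.2.2.1 m1.2.2.2 m3.2.2.1 m3.2.2.2 hT
          (nearC P hP.1 P' hP'.1 (by rw [hP.2, hP'.2]; exact hself))
      · intro P hP Q hQ hT P' hP'
        rw [mem_filter] at hP hQ hP'
        have m1 := hmem P hP.1
        have m2 := hmem Q hQ.1
        have m3 := hmem P' hP'.1
        have hconn : Conn c l m P Q := by
          have a1 := krep_conn c l m P
          have a2 := krep_conn c l m Q
          rw [hP.2] at a1
          rw [hQ.2] at a2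
          exact a1.symm.trans a2
        exact G.strip_types hlm hconn m1.2.1 m2.2.1 m3.2.1 m1.2.2.1 m1.2.2.2 m3.2.2.1 m3.2.2.2 hT
          (nearC P hP.1 P' hP'.1 (by rw [hP.2, hP'.2]; exact hne'.2))
    have step3 : ∑ P ∈ Rl, ∑ Q ∈ Rl, (if ty c P = ty c Q then 1 else 0) *
        H (krep c l m P) (krep c l m Q) =
        ∑ κ ∈ Rl.image (krep c l m), ∑ κ' ∈ Rl.image (krep c l m),
        (∑ P ∈ Rl.filter (fun τ => krep c l m τ = κ), ∑ Q ∈ Rl.filter (fun τ => krep c l m τ = κ'),
          (if ty c P = ty c Q then (1 : ZMod 2) else 0)) * H κ κ' := by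
      rw [← sum_fiberwise_of_maps_to (t := Rl.image (krep c l m)) (g := krep c l m)
        (fun x hx => mem_image_of_mem _ hx)]
      apply sum_congr rfl
      intro κ _
      have e1 : ∀ P ∈ Rl.filter (fun τ => krep c l m τ = κ),
          ∑ Q ∈ Rl, (if ty c P = ty c Q then 1 else 0) * H (krep c l m P) (krep c l m Q) =
          ∑ κ' ∈ Rl.image (krep c l m), (∑ Q ∈ Rl.filter (fun τ => krep c l m τ = κ'),
          (if ty c P = ty c Q then (1 : ZMod 2) else 0)) * H κ κ' := by
        intro P hP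
        rw [mem_filter] at hP
        rw [← sum_fiberwise_of_maps_to (t := Rl.image (krep c l m)) (g := krep c l m)
          (fun x hx => mem_image_of_mem _ hx)]
        apply sum_congr rfl
        intro κ' _
        rw [sum_mul]
        apply sum_congr rfl
        intro Q hQ
        rw [mem_filter] at hQ
        rw [hP.2, hQ.2]
      rw [sum_congr rfl e1, sum_comm]
      apply sum_congr rfl
      intro κ' _
      rw [sum_mul]
    rw [step3]
    apply sum_eq_zero
    intro κ hκ
    apply sum_eq_zero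
    intro κ' hκ'
    by_cases hz : H κ κ' = 0
    · rw [hz, mul_zero]
    · rw [step2 κ hκ κ' hκ' hz, zero_mul]
  · intro P Q
    by_cases hc : ty c P = ty c Q ∧ ‖ee P.1 - ee Q.1‖ < r ∧ (ty c P).card = 3 ∧
      l ∈ ty c P ∧ m ∈ ty c P
    · obtain ⟨a1, a2, a3, a4, a5⟩ := hc
      rw [hh1 P Q a1 a2 a3 a4 a5, hh1 Q P a1.symm (by rw [norm_sub_rev]; exact a2) (a1 ▸ a3)
        (a1 ▸ a4) (a1 ▸ a5), wall_symm]
    · rw [hh2 P Q hc, hh2 Q P]
      rintro ⟨a1, a2, a3, a4, a5⟩
      exact hc ⟨a1.symm, by rw [norm_sub_rev]; exact a2, a1 ▸ a3, a1 ▸ a4, a1 ▸ a5⟩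
  · intro P Q hk
    have hk' := he hk
    by_cases hc : ty c P = ty c Q ∧ ‖ee P.1 - ee Q.1‖ < r ∧ (ty c P).card = 3 ∧
      l ∈ ty c P ∧ m ∈ ty c P
    · obtain ⟨a1, a2, a3, a4, a5⟩ := hc
      rw [hh1 P Q a1 a2 a3 a4 a5]
      apply wall_self
      · rw [havl P, havl Q, hk']
      · rw [havm P, havm Q, hk']
    · exact hh2 P Q hc

/-- There is no colouring of the plane with six colours and a forbidden interval. -/
theorem no_good : ¬ Good c r s := by
  classical
  intro G
  have hs := G.hs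
  have hr := G.hr
  have hr0 : 0 < r := by linarith
  set N : ℕ := ⌈10 * r⌉₊ with hNdef
  have hN : 10 * r ≤ N := Nat.le_ceil _
  have hNpos : 0 < N := by
    have : (0 : ℝ) < N := by linarith
    exact_mod_cast this
  obtain ⟨e, he⟩ : ∃ e : Tri → ℕ, Function.Injective e :=
    ⟨Encodable.encode, Encodable.encode_injective⟩
  have hdeg : ∑ τ ∈ bx (3 * N), WW c τ = 1 := by
    apply degree_one (aa c) N (3 * N)
    · intro x
      have h1 := G.aa_near x
      obtain ⟨h2, h3⟩ := coord_le (aa c x) x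
      constructor
      · have : |((aa c x).1 : ℝ) - x.1| ≤ N := by linarith
        exact_mod_cast this
      · have : |((aa c x).2 : ℝ) - x.2| ≤ N := by linarith
        exact_mod_cast this
    · omega
  set R := (bx (3 * N)).filter (fun τ => (ty c τ).card = 3) with hR
  have hRsum : ∑ τ ∈ R, WW c τ = 1 := by
    rw [hR, sum_filter_of_ne, hdeg]
    intro τ _ hne
    by_contra h3
    exact hne (WW_nonrainbow h3)
  -- the double sum
  have hdouble : ∑ P ∈ R, ∑ Q ∈ R,
      (if ty c P = ty c Q ∧ ‖ee P.1 - ee Q.1‖ < r then WW c P else 0) = 0 := by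
    apply sum_eq_zero
    intro P hP
    have e1 : ∀ Q ∈ R, (if ty c P = ty c Q ∧ ‖ee P.1 - ee Q.1‖ < r then WW c P else 0) =
        WW c P * (if ty c P = ty c Q ∧ ‖ee P.1 - ee Q.1‖ < r then (1 : ZMod 2) else 0) := by
      intro Q _
      split_ifs <;> simp
    rw [sum_congr rfl e1, ← mul_sum]
    by_cases hW : WW c P = 0
    · rw [hW, zero_mul]
    · have hP3 : (ty c P).card = 3 := by
        by_contra h3
        exact hW (WW_nonrainbow h3)
      have hd1 : |P.1.1| ≤ N ∧ |P.1.2| ≤ N := by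
        by_contra hcon
        apply hW
        apply G.WW_far hN
        by_contra hcon2
        push Not at hcon2
        exact hcon hcon2
      rw [hR, G.even_near' hN hP3 hd1.1 hd1.2, mul_zero]
  rw [sym_split R e he] at hdouble
  have hfirst : ∑ P ∈ R, (if ty c P = ty c P ∧ ‖ee P.1 - ee P.1‖ < r then WW c P else 0) = 1 := by
    rw [← hRsum]
    apply sum_congr rfl
    intro P _
    rw [if_pos ⟨rfl, by rw [sub_self, norm_zero]; exact hr0⟩]
  set h : Fin 6 × Fin 6 → Tri → Tri → ZMod 2 := fun p P Q =>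
    if ty c P = ty c Q ∧ ‖ee P.1 - ee Q.1‖ < r ∧ (ty c P).card = 3 ∧ p.1 ∈ ty c P ∧ p.2 ∈ ty c P
    then wall c P Q p.1 p.2 else 0 with hh
  have hsecond : ∑ P ∈ R, ∑ Q ∈ R, (if e P < e Q then
      (if ty c P = ty c Q ∧ ‖ee P.1 - ee Q.1‖ < r then WW c P else 0) +
      (if ty c Q = ty c P ∧ ‖ee Q.1 - ee P.1‖ < r then WW c Q else 0) else 0) = 0 := by
    have e1 : ∀ P ∈ R, ∀ Q ∈ R, (if e P < e Q then
      (if ty c P = ty c Q ∧ ‖ee P.1 - ee Q.1‖ < r then WW c P else 0) +
      (if ty c Q = ty c P ∧ ‖ee Q.1 - ee P.1‖ < r then WW c Q else 0) else 0) =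
      ∑ p ∈ univ.filter (fun p : Fin 6 × Fin 6 => p.1 < p.2), (if e P < e Q then h p P Q else 0) := by
      intro P hP Q hQ
      rw [hR, mem_filter] at hP
      by_cases h1 : e P < e Q
      · simp only [if_pos h1]
        by_cases h2 : ty c P = ty c Q ∧ ‖ee P.1 - ee Q.1‖ < r
        · rw [if_pos h2, if_pos ⟨h2.1.symm, by rw [norm_sub_rev]; exact h2.2⟩,
            wall_sum hP.2 h2.1]
          apply sum_congr rfl
          intro p _
          simp only [hh]
          by_cases h3 : p.1 ∈ ty c P ∧ p.2 ∈ ty c P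
          · rw [if_pos h3, if_pos ⟨h2.1, h2.2, hP.2, h3⟩]
          · rw [if_neg h3, if_neg (fun h' => h3 h'.2.2.2)]
        · rw [if_neg h2, if_neg (fun h' => h2 ⟨h'.1.symm, by rw [norm_sub_rev]; exact h'.2⟩),
            add_zero]
          symm
          apply sum_eq_zero
          intro p _
          simp only [hh]
          rw [if_neg (fun h' => h2 ⟨h'.1, h'.2.1⟩)]
      · simp [h1]
    rw [sum_congr rfl (fun P hP => sum_congr rfl (fun Q hQ => e1 P hP Q hQ))]
    have e2 : ∀ P ∈ R, ∑ Q ∈ R, ∑ p ∈ univ.filter (fun p : Fin 6 × Fin 6 => p.1 < p.2),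
        (if e P < e Q then h p P Q else 0) =
        ∑ p ∈ univ.filter (fun p : Fin 6 × Fin 6 => p.1 < p.2), ∑ Q ∈ R,
        (if e P < e Q then h p P Q else 0) := fun P _ => sum_comm
    rw [sum_congr rfl e2, sum_comm]
    apply sum_eq_zero
    intro p hp
    rw [mem_filter] at hp
    apply G.pair_zero hN hp.2.ne e he R hR (h p)
    · intro P Q a1 a2 a3 a4 a5
      simp only [hh]
      rw [if_pos ⟨a1, a2, a3, a4, a5⟩]
    · intro P Q hn
      simp only [hh]
      rw [if_neg hn]
  rw [hfirst, hsecond, add_zero] at hdouble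
  exact one_ne_zero hdouble

end

/-- **The plane with a forbidden interval of distances needs at least seven colours.** -/
theorem interval {a b : ℝ} (ha : 0 < a) (hab : a < b) : ¬ ∃ f : ℝ → ℝ → Fin 6,
    ∀ x y x' y' : ℝ, a ≤ (x - x') ^ 2 + (y - y') ^ 2 → (x - x') ^ 2 + (y - y') ^ 2 ≤ b →
      f x y ≠ f x' y' := by
  rintro ⟨f, hf⟩
  have hsa : 0 < √a := Real.sqrt_pos.mpr ha
  have hsab : √a < √b := Real.sqrt_lt_sqrt ha.le hab
  -- centre and half length of the interval
  set m := (√a + √b) / 2 with hm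
  set d := (√b - √a) / 2 with hd
  have hdpos : 0 < d := by rw [hd]; linarith
  have hmd : d < m := by rw [hd, hm]; linarith
  set q := 100 / d with hq
  have hqpos : 0 < q := by positivity
  have hqd : q * d = 100 := by rw [hq]; field_simp
  apply no_good (c := fun z => f (z.re / q) (z.im / q)) (r := q * m) (s := 100)
  refine ⟨le_rfl, ?_, ?_⟩
  · rw [← hqd]
    exact mul_le_mul_of_nonneg_left hmd.le hqpos.le
  · intro z w h1 h2
    have e : (z.re / q - w.re / q) ^ 2 + (z.im / q - w.im / q) ^ 2 = (‖z - w‖ / q) ^ 2 := by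
      rw [div_pow, ← Complex.normSq_eq_norm_sq, Complex.normSq_apply, Complex.sub_re,
        Complex.sub_im]
      field_simp
    have h3 : √a ≤ ‖z - w‖ / q := by
      rw [le_div_iff₀ hqpos]
      have : √a = m - d := by rw [hm, hd]; ring
      rw [this]
      linarith [mul_comm q (m - d), mul_sub q m d]
    have h4 : ‖z - w‖ / q ≤ √b := by
      rw [div_le_iff₀ hqpos]
      have : √b = m + d := by rw [hm, hd]; ring
      rw [this]
      linarith [mul_comm q (m + d), mul_add q m d]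
    apply hf
    · rw [e, ← Real.sqrt_le_sqrt_iff (by positivity), Real.sqrt_sq (by positivity)]
      exact h3
    · rw [e, ← Real.sqrt_le_sqrt_iff (by linarith), Real.sqrt_sq (by positivity)]
      exact h4

end Pool.Agent.Lib_helper53.Thick
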